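import Mathlib

/-!
# The arithmetic at the end of the recursion of Ottaviani and Paoletti

Notation of the notes 1684, 1709, 1713: `d` the degree, `s` letters of degree `d`, `i` letters of
degree `d - 1`, twist `2 d` (case `k = 0`), `p = 3 d - 3`, `t = 2 (p - s) - i`.
`n j` is the number of letters left after `j` rows have been extracted.

* `no_rows` : there is no admissible sequence of rows.
* `gen_first` : after the first row at most `2 d` letters are left (generation condition).
-/

namespace H33.OPA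

/-- The numerical core for small degrees: four rows are enough. -/
theorem small (d x a b c e : ℤ) (hd : 2 ≤ d) (hd' : d ≤ 16) (hx0 : 0 ≤ x) (hx : x + 4 ≤ 2 * d)
    (hc : 1 ≤ c) (he : 1 ≤ e)
    (h1 : (d - 1) * (x + d + 1) + 2 * d + 2 ≤ (a + 1) * (5 * d - 9 - x))
    (h2 : (d - 1) * (x + d + 1 - a) + 2 * d + 1 ≤ (b + 1) * (5 * d - 9 - x))
    (h3 : (d - 1) * (x + d + 1 - a - b) + 2 * d + 2 ≤ (c + 1) * (5 * d - 9 - x))
    (h4 : (d - 1) * (x + d + 1 - a - b - c) + 2 * d + 3 ≤ (e + 1) * (5 * d - 9 - x))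
    (h5 : a + b + c + e ≤ x + 4) : False := by
  have hx' : x ≤ 2 * d - 4 := by linarith
  interval_cases d <;> norm_num at hx' <;> interval_cases x <;> omega

/-- The numerical core for large degrees: sum up the first eight rows. -/
theorem large (d x : ℤ) (hd : 17 ≤ d) (hx0 : 0 ≤ x) (hx : x + 4 ≤ 2 * d)
    (h : (d - 1) * (8 * (d + 1) - 28) + 16 * d ≤ (x + 16) * (5 * d - 9 - x)) : False := by
  nlinarith [mul_nonneg (show (0 : ℤ) ≤ 2 * d - 4 - x by linarith)
    (show (0 : ℤ) ≤ d - 17 by linarith), sq_nonneg (2 * d - 4 - x)]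

/-- One row, with the bound `t - j` weakened to `5 d - 9 - x`. -/
theorem weaken (d s x n r j T : ℤ) (hr : 1 ≤ r) (hj : 0 ≤ j) (hs : 2 ≤ s)
    (hT : T = 5 * d - 7 - s - x)
    (h : (d - 1) * n + 2 * d - j ≤ (r + 1) * (T - j)) :
    (d - 1) * n + 2 * d + j ≤ (r + 1) * (5 * d - 9 - x) := by
  subst hT
  nlinarith [mul_nonneg hj (show (0 : ℤ) ≤ r - 1 by linarith),
    mul_nonneg (show (0 : ℤ) ≤ s - 2 by linarith) (show (0 : ℤ) ≤ r + 1 by linarith)]

/-- **No admissible sequence of rows.**  `n j` letters are left after `j` rows; there are at least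
`d + 1` rows; the first row of the type which is left after `j` rows is at most `t - j` and the
type has `r + 1` rows, where `r = n j - n (j+1)` is the length of the next row. -/
theorem no_rows (d s i : ℤ) (hd : 2 ≤ d) (hs : 2 ≤ s) (hsi : s + i + 3 ≤ 3 * d)
    (n : ℕ → ℤ) (h0 : n 0 = s + i) (hn : ∀ j : ℕ, (j : ℤ) ≤ d + 1 → 0 ≤ n j)
    (hdec : ∀ j : ℕ, (j : ℤ) ≤ d → n (j + 1) + 1 ≤ n j)
    (hfirst : (d - 1) * n 0 + 2 * d + s ≤ (n 0 - n 1 + 1) * (6 * d - 6 - 2 * s - i))
    (hrow : ∀ j : ℕ, 1 ≤ j → (j : ℤ) ≤ d →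
      (d - 1) * n j + 2 * d - j ≤ (n j - n (j + 1) + 1) * (6 * d - 6 - 2 * s - i - j)) :
    False := by
  -- number of letters left
  have hlow : ∀ m : ℕ, ∀ j : ℕ, (j : ℤ) + m = d + 1 → (m : ℤ) ≤ n j := by
    intro m
    induction m with
    | zero =>
      intro j hj
      have := hn j (by push_cast at hj; linarith)
      simpa using this
    | succ m ih =>
      intro j hj
      push_cast at hj
      have h1 := ih (j + 1) (by push_cast; linarith)
      have h2 := hdec j (by linarith [Int.natCast_nonneg m])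
      push_cast
      linarith
  have hlow' : ∀ j : ℕ, (j : ℤ) ≤ d + 1 → d + 1 - j ≤ n j := by
    intro j hj
    have := hlow (d + 1 - j).toNat j (by rw [Int.toNat_of_nonneg (by linarith)]; ring)
    rwa [Int.toNat_of_nonneg (by linarith)] at this
  obtain ⟨x, hx⟩ : ∃ x, x = s + i - d - 1 := ⟨_, rfl⟩
  have hx0 : 0 ≤ x := by
    have := hlow' 0 (by push_cast; linarith)
    push_cast at this
    linarith
  have hn0 : n 0 = x + d + 1 := by linarith
  have hT : 6 * d - 6 - 2 * s - i = 5 * d - 7 - s - x := by rw [hx]; ring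
  rw [hT] at hfirst
  have hr : ∀ j : ℕ, (j : ℤ) ≤ d → 1 ≤ n j - n (j + 1) := by
    intro j hj
    linarith [hdec j hj]
  have hW : ∀ j : ℕ, 1 ≤ j → (j : ℤ) ≤ d →
      (d - 1) * n j + 2 * d + j ≤ (n j - n (j + 1) + 1) * (5 * d - 9 - x) := by
    intro j hj1 hjd
    have h := hrow j hj1 hjd
    rw [hT] at h
    exact weaken d s x (n j) (n j - n (j + 1)) j (5 * d - 7 - s - x) (hr j hjd)
      (Int.natCast_nonneg j) hs rfl h
  have hW0 : (d - 1) * n 0 + 2 * d + 2 ≤ (n 0 - n 1 + 1) * (5 * d - 9 - x) := by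
    have h1 := hr 0 (by push_cast; linarith)
    simp only [Nat.zero_add] at h1
    nlinarith [mul_nonneg (show (0 : ℤ) ≤ s - 2 by linarith)
      (show (0 : ℤ) ≤ n 0 - n 1 + 1 by linarith)]
  rcases lt_or_ge d 17 with hlt | hge
  · -- small degrees
    rcases lt_or_ge d 3 with h3 | h3
    · have hd2 : d = 2 := by linarith
      subst hd2
      have hx0' : x = 0 := by linarith
      subst hx0'
      have l1 := hlow' 1 (by norm_num)
      norm_num at l1 hW0
      linarith
    · have w1 := hW 1 le_rfl (by push_cast; linarith)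
      have w2 := hW 2 (by norm_num) (by push_cast; linarith)
      have w3 := hW 3 (by norm_num) (by push_cast; linarith)
      have r2 := hr 2 (by push_cast; linarith)
      have r3 := hr 3 (by push_cast; linarith)
      have l4 := hlow' 4 (by push_cast; linarith)
      push_cast at w1 w2 w3 r2 r3 l4
      refine small d x (n 0 - n 1) (n 1 - n 2) (n 2 - n 3) (n 3 - n 4) hd (by linarith) hx0
        (by linarith) (by simpa using r2) (by simpa using r3) ?_ ?_ ?_ ?_ ?_
      · rw [← hn0]; exact hW0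
      · have e1 : x + d + 1 - (n 0 - n 1) = n 1 := by linarith
        rw [e1]; simpa using w1
      · have e1 : x + d + 1 - (n 0 - n 1) - (n 1 - n 2) = n 2 := by linarith
        rw [e1]; simpa using w2
      · have e1 : x + d + 1 - (n 0 - n 1) - (n 1 - n 2) - (n 2 - n 3) = n 3 := by linarith
        rw [e1]; simpa using w3
      · linarith
  · -- large degrees
    have w1 := hW 1 le_rfl (by push_cast; linarith)
    have w2 := hW 2 (by norm_num) (by push_cast; linarith)
    have w3 := hW 3 (by norm_num) (by push_cast; linarith)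
    have w4 := hW 4 (by norm_num) (by push_cast; linarith)
    have w5 := hW 5 (by norm_num) (by push_cast; linarith)
    have w6 := hW 6 (by norm_num) (by push_cast; linarith)
    have w7 := hW 7 (by norm_num) (by push_cast; linarith)
    have l0 := hlow' 0 (by push_cast; linarith)
    have l1 := hlow' 1 (by push_cast; linarith)
    have l2 := hlow' 2 (by push_cast; linarith)
    have l3 := hlow' 3 (by push_cast; linarith)
    have l4 := hlow' 4 (by push_cast; linarith)
    have l5 := hlow' 5 (by push_cast; linarith)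
    have l6 := hlow' 6 (by push_cast; linarith)
    have l7 := hlow' 7 (by push_cast; linarith)
    have l8 := hlow' 8 (by push_cast; linarith)
    push_cast at w1 w2 w3 w4 w5 w6 w7 l0 l1 l2 l3 l4 l5 l6 l7 l8
    have hsum : (d - 1) * (n 0 + n 1 + n 2 + n 3 + n 4 + n 5 + n 6 + n 7) + 16 * d
        ≤ (n 0 - n 8 + 8) * (5 * d - 9 - x) := by
      norm_num at w1 w2 w3 w4 w5 w6 w7
      nlinarith [hW0, w1, w2, w3, w4, w5, w6, w7]
    have hA : (d - 1) * (8 * (d + 1) - 28)
        ≤ (d - 1) * (n 0 + n 1 + n 2 + n 3 + n 4 + n 5 + n 6 + n 7) :=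
      mul_le_mul_of_nonneg_left (by linarith) (by linarith)
    have hB : (n 0 - n 8 + 8) * (5 * d - 9 - x) ≤ (x + 16) * (5 * d - 9 - x) :=
      mul_le_mul_of_nonneg_right (by linarith) (by linarith)
    exact large d x hge hx0 (by linarith) (by linarith)

/-- The generation condition for the first row: at most `2 d` letters are left. -/
theorem gen_first (d s i r : ℤ) (hd : 2 ≤ d) (hs : 2 ≤ s) (hi : 0 ≤ i) (hr : 1 ≤ r)
    (hsi : s + i + 3 ≤ 3 * d)
    (h : (d - 1) * (s + i) + 2 * d + s ≤ (r + 1) * (6 * d - 6 - 2 * s - i)) :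
    s + i - r ≤ 2 * d := by
  by_contra hcon
  push Not at hcon
  -- r + 1 ≤ s + i - 2 d
  have h1 : r + 1 ≤ s + i - 2 * d := by linarith
  have h2 : 0 ≤ 6 * d - 6 - 2 * s - i := by nlinarith
  have h3 : (r + 1) * (6 * d - 6 - 2 * s - i) ≤ (s + i - 2 * d) * (6 * d - 6 - 2 * s - i) :=
    mul_le_mul_of_nonneg_right h1 h2
  have h4 : (s + i - 2 * d) * (6 * d - 6 - 2 * s - i) ≤ (s + i - 2 * d) * (6 * d - 8 - (s + i)) :=
    mul_le_mul_of_nonneg_left (by linarith) (by linarith)
  nlinarith [mul_nonneg (show (0 : ℤ) ≤ 3 * d - 3 - (s + i) by linarith)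
    (show (0 : ℤ) ≤ s + i by linarith)]

end H33.OPA
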