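import Mathlib

/-!
Definitions for the algebraic entropy of continuous endomorphisms of topological groups.
-/

set_option autoImplicit false

open scoped Pointwise Topology
open Filter MeasureTheory

namespace Pool.Agent.H33.Ent

/-- `T_n(φ, U) = U · φ(U) ⋯ φ^{n-1}(U)` (for `n = 0` the empty product `{1}`). -/
def traj {G : Type*} [Group G] (φ : G →* G) (U : Set G) (n : ℕ) : Set G :=
  ((List.range n).map (fun i => (φ^[i]) '' U)).prod

/-- `μ` is a right Haar measure on the Borel sets of `G`: right invariant, finite on compact sets,
positive on nonempty open sets. (Regularity is not needed, so it is not imposed.) -/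
structure IsRightHaar {G : Type*} [Group G] [TopologicalSpace G]
    (μ : @Measure G (borel G)) : Prop where
  lt_top_of_isCompact : ∀ K : Set G, IsCompact K → μ K < ⊤
  pos_of_isOpen : ∀ U : Set G, IsOpen U → U.Nonempty → 0 < μ U
  map_mul_right : ∀ (g : G) (s : Set G), MeasurableSet[borel G] s →
    μ ((fun x => x * g) '' s) = μ s

/-- `H_alg(φ, U) = limsup_n log μ(T_n(φ, U)) / n`. -/
noncomputable def Halg {G : Type*} [Group G] [TopologicalSpace G] (μ : @Measure G (borel G))
    (φ : G →* G) (U : Set G) : EReal :=
  limsup (fun n : ℕ => ((Real.log (μ (traj φ U n)).toReal / n : ℝ) : EReal)) atTop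

/-- `h_alg(φ)`: the supremum of `H_alg(φ, U)` over the compact neighbourhoods `U` of the identity. -/
noncomputable def halg {G : Type*} [Group G] [TopologicalSpace G] (μ : @Measure G (borel G))
    (φ : G →* G) : EReal :=
  ⨆ (U : Set G) (_ : IsCompact U ∧ U ∈ 𝓝 (1 : G)), Halg μ φ U

/-- Topologically quasihamiltonian groups. -/
def IsTQH (G : Type*) [Group G] [TopologicalSpace G] : Prop :=
  ∀ X Y : Subgroup G, IsClosed (X : Set G) → IsClosed (Y : Set G) →
    closure ((X : Set G) * (Y : Set G)) = closure ((Y : Set G) * (X : Set G))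

/-- Strongly compactly covered groups: each element lies in a compact open normal subgroup. -/
def StronglyCompactlyCovered (G : Type*) [Group G] [TopologicalSpace G] : Prop :=
  ∀ g : G, ∃ N : Subgroup G, N.Normal ∧ IsCompact (N : Set G) ∧ IsOpen (N : Set G) ∧ g ∈ N

/-- The restriction of `φ` to an invariant subgroup `H`, as an endomorphism of `H`. -/
def restr {G : Type*} [Group G] (φ : G →* G) (H : Subgroup G) (hφ : H ≤ H.comap φ) : H →* H :=
  (φ.comp H.subtype).codRestrict H (fun h => hφ h.2)

end Pool.Agent.H33.Ent
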