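import Pool.Agent.H33.TrajTel
import Pool.Agent.H33.EntDefs

/-!
Algebraic entropy of continuous endomorphisms: reduction to indices of subgroups.
-/

set_option autoImplicit false

open scoped Pointwise Topology
open Filter MeasureTheory

namespace Pool.Agent.H33.Ent

open TrajAlg

section algebra

variable {G : Type*} [Group G]

lemma traj_zero (φ : G →* G) (U : Set G) : traj φ U 0 = 1 := by
  simp [traj]

lemma traj_succ (φ : G →* G) (U : Set G) (n : ℕ) :
    traj φ U (n + 1) = U * φ '' (traj φ U n) := by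
  unfold traj
  rw [List.range_succ_eq_map, List.map_cons, List.prod_cons, Set.image_list_prod]
  simp only [Function.iterate_zero, Set.image_id, List.map_map]
  congr 3
  funext i
  simp only [Function.comp, Function.iterate_succ']
  rw [Set.image_image]

lemma traj_mono (φ : G →* G) {U V : Set G} (h : U ⊆ V) (n : ℕ) : traj φ U n ⊆ traj φ V n := by
  induction n with
  | zero => rw [traj_zero, traj_zero]
  | succ n ih =>
    rw [traj_succ, traj_succ]
    exact Set.mul_subset_mul h (Set.image_mono ih)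

lemma traj_eq_coe {φ : G →* G} {S : ℕ → Subgroup G} (h : IsTraj φ S) (n : ℕ) :
    traj φ (S 1 : Set G) n = (S n : Set G) := by
  induction n with
  | zero => rw [traj_zero, h.zero]; rfl
  | succ n ih => rw [traj_succ, ih]; exact (h.succ n).symm

/-- The sequence of subgroups generated by `U`. -/
def seqS (φ : G →* G) (U : Subgroup G) : ℕ → Subgroup G
  | 0 => ⊥
  | n + 1 => U ⊔ (seqS φ U n).map φ

lemma coe_sup_of_mul_comm {A B : Subgroup G} (h : (A : Set G) * B = (B : Set G) * A) :
    ((A ⊔ B : Subgroup G) : Set G) = (A : Set G) * B := by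
  let C : Subgroup G :=
    { carrier := (A : Set G) * B
      one_mem' := ⟨1, A.one_mem, 1, B.one_mem, one_mul 1⟩
      mul_mem' := by
        intro x y hx hy
        have : x * y ∈ ((A : Set G) * B) * ((A : Set G) * B) := Set.mul_mem_mul hx hy
        rw [mul_assoc, ← mul_assoc (B : Set G), ← h, mul_assoc, coe_mul_coe, ← mul_assoc,
          coe_mul_coe] at this
        exact this
      inv_mem' := by
        intro x hx
        have : x⁻¹ ∈ ((A : Set G) * B)⁻¹ := Set.inv_mem_inv.2 hx
        rw [mul_inv_rev, inv_coe_set, inv_coe_set, ← h] at this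
        exact this }
  apply Set.Subset.antisymm
  · have : A ⊔ B ≤ C := by
      refine sup_le ?_ ?_
      · intro x hx; exact ⟨x, hx, 1, B.one_mem, mul_one x⟩
      · intro x hx; exact ⟨1, A.one_mem, x, hx, one_mul x⟩
    exact this
  · rintro _ ⟨x, hx, y, hy, rfl⟩
    exact (A ⊔ B).mul_mem (Subgroup.mem_sup_left hx) (Subgroup.mem_sup_right hy)

end algebra

/-- Compact subgroups permute. -/
def PermCompact (G : Type*) [Group G] [TopologicalSpace G] : Prop :=
  ∀ A B : Subgroup G, IsCompact (A : Set G) → IsCompact (B : Set G) →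
    (A : Set G) * B = (B : Set G) * A

section top

variable {G : Type*} [Group G] [TopologicalSpace G] [IsTopologicalGroup G]

lemma IsTQH.permCompact [T2Space G] (h : IsTQH G) : PermCompact G := by
  intro A B hA hB
  have h1 := h A B hA.isClosed hB.isClosed
  rwa [(hA.mul hB).isClosed.closure_eq, (hB.mul hA).isClosed.closure_eq] at h1

lemma PermCompact.subgroup (h : PermCompact G) (H : Subgroup G) : PermCompact H := by
  intro A B hA hB
  have hA' : IsCompact ((A.map H.subtype : Subgroup G) : Set G) := by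
    rw [Subgroup.coe_map]
    exact hA.image continuous_subtype_val
  have hB' : IsCompact ((B.map H.subtype : Subgroup G) : Set G) := by
    rw [Subgroup.coe_map]
    exact hB.image continuous_subtype_val
  have h1 := h _ _ hA' hB'
  have hinj : Function.Injective (H.subtype : H → G) := Subtype.val_injective
  apply hinj.image_injective
  show H.subtype '' _ = H.subtype '' _
  rw [Set.image_mul, Set.image_mul]
  exact h1

lemma isCompact_seqS (hP : PermCompact G) {φ : G →* G} (hφ : Continuous φ) {U : Subgroup G}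
    (hU : IsCompact (U : Set G)) (n : ℕ) :
    IsCompact (seqS φ U n : Set G) ∧
      (seqS φ U (n + 1) : Set G) = (U : Set G) * ((seqS φ U n).map φ : Set G) := by
  induction n with
  | zero =>
    have h0 : IsCompact ((seqS φ U 0 : Subgroup G) : Set G) := by
      show IsCompact ((⊥ : Subgroup G) : Set G)
      rw [Subgroup.coe_bot]
      exact isCompact_singleton
    refine ⟨h0, ?_⟩
    apply coe_sup_of_mul_comm
    apply hP _ _ hU
    rw [Subgroup.coe_map]
    exact h0.image hφ
  | succ n ih =>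
    obtain ⟨i1, i2⟩ := ih
    have h0 : IsCompact ((seqS φ U (n + 1) : Subgroup G) : Set G) := by
      rw [i2]
      apply hU.mul
      rw [Subgroup.coe_map]
      exact i1.image hφ
    refine ⟨h0, ?_⟩
    apply coe_sup_of_mul_comm
    apply hP _ _ hU
    rw [Subgroup.coe_map]
    exact h0.image hφ

lemma seqS_one (φ : G →* G) (U : Subgroup G) : seqS φ U 1 = U := by
  show U ⊔ (⊥ : Subgroup G).map φ = U
  simp

lemma isTraj_seqS (hP : PermCompact G) {φ : G →* G} (hφ : Continuous φ) {U : Subgroup G}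
    (hU : IsCompact (U : Set G)) : IsTraj φ (seqS φ U) where
  zero := rfl
  succ n := by rw [seqS_one]; exact (isCompact_seqS hP hφ hU n).2

lemma relIndex_ne_zero_of_open_compact {A B : Subgroup G} (hA : IsOpen (A : Set G))
    (hB : IsCompact (B : Set G)) : A.relIndex B ≠ 0 := by
  haveI : CompactSpace B := isCompact_iff_compactSpace.1 hB
  have h1 : IsOpen ((A.subgroupOf B : Subgroup B) : Set B) := hA.preimage continuous_subtype_val
  haveI : Finite (B ⧸ A.subgroupOf B) := Subgroup.quotient_finite_of_isOpen _ h1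
  exact Subgroup.index_ne_zero_of_finite

lemma measure_eq_relIndex_mul {μ : @Measure G (borel G)} (hμ : IsRightHaar μ)
    {A B : Subgroup G} (hAB : A ≤ B) (hA : IsOpen (A : Set G))
    (hB : IsCompact (B : Set G)) :
    μ (B : Set G) = (A.relIndex B : ℕ) * μ (A : Set G) := by
  classical
  letI : MeasurableSpace G := borel G
  haveI : BorelSpace G := ⟨rfl⟩
  haveI : CompactSpace B := isCompact_iff_compactSpace.1 hB
  have h1 : IsOpen ((A.subgroupOf B : Subgroup B) : Set B) := hA.preimage continuous_subtype_val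
  haveI : Finite (B ⧸ A.subgroupOf B) := Subgroup.quotient_finite_of_isOpen _ h1
  haveI := Fintype.ofFinite (B ⧸ A.subgroupOf B)
  let E : (B ⧸ A.subgroupOf B) → Set G := fun q => (fun x => x * ((q.out : B) : G)⁻¹) '' (A : Set G)
  have hE : (B : Set G) = ⋃ q, E q := by
    apply Set.Subset.antisymm
    · intro b hb
      rw [Set.mem_iUnion]
      let b' : B := ⟨b⁻¹, B.inv_mem hb⟩
      refine ⟨(b' : B ⧸ A.subgroupOf B), ?_⟩
      have h2 : ((QuotientGroup.mk b' : B ⧸ A.subgroupOf B).out)⁻¹ * b' ∈ A.subgroupOf B := by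
        rw [← QuotientGroup.eq, QuotientGroup.out_eq']
      rw [Subgroup.mem_subgroupOf] at h2
      refine ⟨b * ((QuotientGroup.mk b' : B ⧸ A.subgroupOf B).out : G), ?_, ?_⟩
      · have h3 := A.inv_mem h2
        simpa [b'] using h3
      · simp only
        group
    · rw [Set.iUnion_subset_iff]
      rintro q _ ⟨a, ha, rfl⟩
      exact B.mul_mem (hAB ha) (B.inv_mem (q.out).2)
  have hopen : ∀ q, IsOpen (E q) := by
    intro q
    exact (isOpenMap_mul_right _) _ hA
  have hdisj : Pairwise (Function.onFun Disjoint E) := by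
    intro q q' hqq'
    rw [Function.onFun, Set.disjoint_left]
    rintro _ ⟨a, ha, rfl⟩ ⟨a', ha', h3⟩
    apply hqq'
    rw [← QuotientGroup.out_eq' q, ← QuotientGroup.out_eq' q', QuotientGroup.eq,
      Subgroup.mem_subgroupOf]
    simp only at h3
    have h4 : ((q.out : B) : G)⁻¹ * ((q'.out : B) : G) = a⁻¹ * a' := by
      have h5 : a' = a * ((q.out : B) : G)⁻¹ * ((q'.out : B) : G) := by
        rw [← h3]; group
      rw [h5]; group
    rw [Subgroup.coe_mul, Subgroup.coe_inv, h4]
    exact A.mul_mem (A.inv_mem ha) ha'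
  rw [hE, measure_iUnion hdisj (fun q => (hopen q).measurableSet), tsum_fintype]
  have hsum : ∀ q, μ (E q) = μ (A : Set G) := fun q =>
    hμ.map_mul_right _ _ hA.measurableSet
  simp only [hsum]
  rw [Finset.sum_const, Finset.card_univ, nsmul_eq_mul, Subgroup.relIndex, Subgroup.index,
    Nat.card_eq_fintype_card]

end top

section rate

variable {K : Type*} [Group K] {ψ : K →* K} {S : ℕ → Subgroup K}

/-- The growth rate of the indices. -/
def HasRate (S : ℕ → Subgroup K) (ℓ : ℝ) : Prop :=
  Tendsto (fun n : ℕ => Real.log (((S 1).relIndex (S n) : ℕ) : ℝ) / n) atTop (𝓝 ℓ)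

lemma relIndex_one_ne_zero (h : IsTraj ψ S)
    (hfin : ∀ n, 1 ≤ n → (S n).relIndex (S (n + 1)) ≠ 0) (n : ℕ) :
    (S 1).relIndex (S n) ≠ 0 := by
  induction n with
  | zero => rw [h.zero, Subgroup.relIndex_bot_right]; exact one_ne_zero
  | succ n ih =>
    rcases Nat.eq_zero_or_pos n with rfl | hn
    · rw [Subgroup.relIndex_self]; exact one_ne_zero
    · exact Subgroup.relIndex_ne_zero_trans ih (hfin n hn)

lemma exists_rate (h : IsTraj ψ S)
    (hfin : ∀ n, 1 ≤ n → (S n).relIndex (S (n + 1)) ≠ 0) :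
    ∃ ℓ : ℝ, 0 ≤ ℓ ∧ HasRate S ℓ := by
  obtain ⟨m₀, hm1, hst, -⟩ := h.exists_stable hfin
  set a := (S m₀).relIndex (S (m₀ + 1)) with ha
  have ha0 : a ≠ 0 := hfin m₀ hm1
  have hc : ∀ k, (S 1).relIndex (S (m₀ + k)) = (S 1).relIndex (S m₀) * a ^ k := by
    intro k
    induction k with
    | zero => simp
    | succ k ih =>
      have h1 : S 1 ≤ S (m₀ + k) := h.mono (by omega)
      have h2 := Subgroup.relIndex_mul_relIndex (S 1) (S (m₀ + k)) (S (m₀ + k + 1)) h1
        (h.le_succ _)
      rw [← add_assoc, ← h2, ih, hst (m₀ + k) (by omega), pow_succ, mul_assoc]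
  refine ⟨Real.log a, Real.log_natCast_nonneg a, ?_⟩
  have hc0 : (S 1).relIndex (S m₀) ≠ 0 := relIndex_one_ne_zero h hfin m₀
  have key : ∀ n, m₀ ≤ n → Real.log (((S 1).relIndex (S n) : ℕ) : ℝ) / n =
      (Real.log (((S 1).relIndex (S m₀) : ℕ) : ℝ) - m₀ * Real.log a) / n + Real.log a * (n / n) := by
    intro n hn
    obtain ⟨k, rfl⟩ : ∃ k, n = m₀ + k := ⟨n - m₀, by omega⟩
    rw [hc k]
    push_cast
    rw [Real.log_mul (by exact_mod_cast hc0) (by positivity), Real.log_pow]
    ring
  have lim1 : Tendsto (fun n : ℕ =>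
      (Real.log (((S 1).relIndex (S m₀) : ℕ) : ℝ) - m₀ * Real.log a) / n +
        Real.log a * ((n : ℝ) / n)) atTop (𝓝 (0 + Real.log a * 1)) := by
    refine Tendsto.add (tendsto_const_div_atTop_nhds_zero_nat _) (Tendsto.const_mul _ ?_)
    refine tendsto_const_nhds.congr' ?_
    filter_upwards [eventually_gt_atTop 0] with n hn
    rw [div_self]
    exact_mod_cast hn.ne'
  rw [zero_add, mul_one] at lim1
  refine lim1.congr' ?_
  filter_upwards [eventually_ge_atTop m₀] with n hn
  exact (key n hn).symm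

end rate

section top2

variable {G : Type*} [Group G] [TopologicalSpace G] [IsTopologicalGroup G]

lemma fin_of_compact_open {ψ : G →* G} {S : ℕ → Subgroup G} (h : IsTraj ψ S)
    (ho : IsOpen (S 1 : Set G)) (hc : ∀ n, IsCompact (S n : Set G)) :
    ∀ n, 1 ≤ n → (S n).relIndex (S (n + 1)) ≠ 0 := by
  intro n hn
  refine relIndex_ne_zero_of_open_compact ?_ (hc _)
  exact Subgroup.isOpen_mono (h.mono hn) ho

lemma Halg_eq {μ : @Measure G (borel G)} (hμ : IsRightHaar μ) {ψ : G →* G}
    {S : ℕ → Subgroup G} (h : IsTraj ψ S)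
    (ho : IsOpen (S 1 : Set G)) (hc : ∀ n, IsCompact (S n : Set G)) {ℓ : ℝ} (hℓ : HasRate S ℓ) :
    Halg μ ψ (S 1 : Set G) = (ℓ : EReal) := by
  have hpos : 0 < μ (S 1 : Set G) := hμ.pos_of_isOpen _ ho ⟨1, (S 1).one_mem⟩
  have hlt : μ (S 1 : Set G) < ⊤ := hμ.lt_top_of_isCompact _ (hc 1)
  have hr : 0 < (μ (S 1 : Set G)).toReal := ENNReal.toReal_pos hpos.ne' hlt.ne
  have hlim : Tendsto (fun n : ℕ => Real.log (μ (traj ψ (S 1 : Set G) n)).toReal / n) atTop
      (𝓝 (ℓ + 0)) := by
    have h1 : Tendsto (fun n : ℕ => Real.log (((S 1).relIndex (S n) : ℕ) : ℝ) / n +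
        Real.log (μ (S 1 : Set G)).toReal / n) atTop (𝓝 (ℓ + 0)) :=
      Tendsto.add hℓ (tendsto_const_div_atTop_nhds_zero_nat _)
    refine h1.congr' ?_
    filter_upwards [eventually_ge_atTop 1] with n hn
    have h2 : μ (S n : Set G) = ((S 1).relIndex (S n) : ℕ) * μ (S 1 : Set G) :=
      measure_eq_relIndex_mul hμ (h.mono hn) ho (hc n)
    have h3 : (S 1).relIndex (S n) ≠ 0 := relIndex_ne_zero_of_open_compact ho (hc n)
    rw [traj_eq_coe h n, h2, ENNReal.toReal_mul, ENNReal.toReal_natCast,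
      Real.log_mul (by exact_mod_cast h3) hr.ne', add_div]
  rw [add_zero] at hlim
  have h4 : Tendsto (fun n : ℕ => ((Real.log (μ (traj ψ (S 1 : Set G) n)).toReal / n : ℝ) : EReal))
      atTop (𝓝 (ℓ : EReal)) := (continuous_coe_real_ereal.tendsto ℓ).comp hlim
  exact h4.limsup_eq

lemma Halg_mono {μ : @Measure G (borel G)} (hμ : IsRightHaar μ) {ψ : G →* G}
    (hψ : Continuous ψ) {U V : Set G} (hUV : U ⊆ V) (hU : U ∈ 𝓝 (1 : G)) (hV : IsCompact V) :
    Halg μ ψ U ≤ Halg μ ψ V := by
  unfold Halg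
  refine limsup_le_limsup ?_
  filter_upwards [eventually_ge_atTop 1] with n hn
  have hcpt : ∀ n, IsCompact (traj ψ V n) := by
    intro n
    induction n with
    | zero => rw [traj_zero]; exact isCompact_singleton
    | succ n ih => rw [traj_succ]; exact hV.mul (ih.image hψ)
  have hone : ∀ n, (1 : G) ∈ traj ψ U n := by
    intro n
    induction n with
    | zero => rw [traj_zero]; rfl
    | succ n ih => rw [traj_succ]; exact ⟨1, mem_of_mem_nhds hU, 1, ⟨1, ih, map_one ψ⟩, one_mul 1⟩
  have hsub : interior U ⊆ traj ψ U n := by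
    obtain ⟨k, rfl⟩ : ∃ k, n = k + 1 := ⟨n - 1, by omega⟩
    rw [traj_succ]
    intro x hx
    exact ⟨x, interior_subset hx, 1, ⟨1, hone k, map_one ψ⟩, mul_one x⟩
  have hlt : μ (traj ψ V n) < ⊤ := hμ.lt_top_of_isCompact _ (hcpt n)
  have hpos : 0 < μ (traj ψ U n) :=
    (hμ.pos_of_isOpen _ isOpen_interior ⟨1, mem_interior_iff_mem_nhds.2 hU⟩).trans_le
      (measure_mono hsub)
  have hle : μ (traj ψ U n) ≤ μ (traj ψ V n) := measure_mono (traj_mono ψ hUV n)
  have h1 : Real.log (μ (traj ψ U n)).toReal ≤ Real.log (μ (traj ψ V n)).toReal := by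
    apply Real.log_le_log
    · exact ENNReal.toReal_pos hpos.ne' (hle.trans_lt hlt).ne
    · exact ENNReal.toReal_mono hlt.ne hle
  exact_mod_cast div_le_div_of_nonneg_right h1 (Nat.cast_nonneg n)

end top2

end Pool.Agent.H33.Ent
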