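import Pool.Agent.H33.Ent

/-!
The Addition Theorem.
-/

set_option autoImplicit false

open scoped Pointwise Topology
open Filter MeasureTheory

namespace Pool.Agent.H33.Ent

open TrajAlg

variable {G : Type*} [Group G] [TopologicalSpace G] [IsTopologicalGroup G]

/-- each element lies in a compact open subgroup -/
def CoveredCO (G : Type*) [Group G] [TopologicalSpace G] : Prop :=
  ∀ g : G, ∃ N : Subgroup G, IsCompact (N : Set G) ∧ IsOpen (N : Set G) ∧ g ∈ N

lemma sup_compact_open (hP : PermCompact G) {A B : Subgroup G} (hA : IsCompact (A : Set G))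
    (hA' : IsOpen (A : Set G)) (hB : IsCompact (B : Set G)) :
    IsCompact ((A ⊔ B : Subgroup G) : Set G) ∧ IsOpen ((A ⊔ B : Subgroup G) : Set G) := by
  refine ⟨?_, Subgroup.isOpen_mono le_sup_left hA'⟩
  rw [coe_sup_of_mul_comm (hP A B hA hB)]
  exact hA.mul hB

lemma exists_co_of_isCompact (hP : PermCompact G) (hC : CoveredCO G) (H : Subgroup G) [H.Normal]
    {C : Set (G ⧸ H)} (hCc : IsCompact C) :
    ∃ U : Subgroup G, IsCompact (U : Set G) ∧ IsOpen (U : Set G) ∧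
      C ⊆ (QuotientGroup.mk : G → G ⧸ H) '' (U : Set G) := by
  refine hCc.induction_on (p := fun C => ∃ U : Subgroup G, IsCompact (U : Set G) ∧
    IsOpen (U : Set G) ∧ C ⊆ (QuotientGroup.mk : G → G ⧸ H) '' (U : Set G)) ?_ ?_ ?_ ?_
  · obtain ⟨N, h1, h2, -⟩ := hC 1
    exact ⟨N, h1, h2, Set.empty_subset _⟩
  · rintro s t hst ⟨U, h1, h2, h3⟩
    exact ⟨U, h1, h2, hst.trans h3⟩
  · rintro s t ⟨U, h1, h2, h3⟩ ⟨V, g1, g2, g3⟩
    obtain ⟨k1, k2⟩ := sup_compact_open hP h1 h2 g1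
    refine ⟨U ⊔ V, k1, k2, Set.union_subset ?_ ?_⟩
    · exact h3.trans (Set.image_mono (show (U : Set G) ⊆ _ from
        (le_sup_left : U ≤ U ⊔ V)))
    · exact g3.trans (Set.image_mono (show (V : Set G) ⊆ _ from
        (le_sup_right : V ≤ U ⊔ V)))
  · intro x _
    obtain ⟨g, rfl⟩ := QuotientGroup.mk_surjective x
    obtain ⟨N, h1, h2, h3⟩ := hC g
    refine ⟨(QuotientGroup.mk : G → G ⧸ H) '' (N : Set G), ?_, N, h1, h2, subset_rfl⟩
    apply mem_nhdsWithin_of_mem_nhds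
    exact (QuotientGroup.isOpenMap_coe _ h2).mem_nhds ⟨g, h3, rfl⟩

lemma exists_co_of_isCompact' (hP : PermCompact G) (hC : CoveredCO G)
    {C : Set G} (hCc : IsCompact C) :
    ∃ U : Subgroup G, IsCompact (U : Set G) ∧ IsOpen (U : Set G) ∧ C ⊆ (U : Set G) := by
  refine hCc.induction_on (p := fun C => ∃ U : Subgroup G, IsCompact (U : Set G) ∧
    IsOpen (U : Set G) ∧ C ⊆ (U : Set G)) ?_ ?_ ?_ ?_
  · obtain ⟨N, h1, h2, -⟩ := hC 1
    exact ⟨N, h1, h2, Set.empty_subset _⟩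
  · rintro s t hst ⟨U, h1, h2, h3⟩
    exact ⟨U, h1, h2, hst.trans h3⟩
  · rintro s t ⟨U, h1, h2, h3⟩ ⟨V, g1, g2, g3⟩
    obtain ⟨k1, k2⟩ := sup_compact_open hP h1 h2 g1
    refine ⟨U ⊔ V, k1, k2, Set.union_subset ?_ ?_⟩
    · exact h3.trans (le_sup_left : U ≤ U ⊔ V)
    · exact g3.trans (le_sup_right : V ≤ U ⊔ V)
  · intro x _
    obtain ⟨N, h1, h2, h3⟩ := hC x
    exact ⟨(N : Set G), mem_nhdsWithin_of_mem_nhds (h2.mem_nhds h3), N, h1, h2, subset_rfl⟩

section main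

variable [T2Space G] (hP : PermCompact G) (φ : G →* G) (hφ : Continuous φ)
  (H : Subgroup G) [H.Normal] (hHc : IsClosed (H : Set G)) (hφH : H ≤ H.comap φ)
  {μ : @Measure G (borel G)} {ν : @Measure (G ⧸ H) (borel (G ⧸ H))} {ρ : @Measure H (borel H)}
  (hμ : IsRightHaar μ) (hν : IsRightHaar ν) (hρ : IsRightHaar ρ)

include hP hφ hHc hμ hν hρ

omit [T2Space G] in
lemma main_ineq (U : Subgroup G) (hU : IsCompact (U : Set G)) (hU' : IsOpen (U : Set G)) :
    ∃ (ℓG ℓQ ℓ₁ ℓ₂ : ℝ) (W : Subgroup H), IsCompact (W : Set H) ∧ IsOpen (W : Set H) ∧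
      Halg μ φ (U : Set G) = (ℓG : EReal) ∧
      Halg ν (QuotientGroup.map H H φ hφH) ((QuotientGroup.mk : G → G ⧸ H) '' (U : Set G)) =
        (ℓQ : EReal) ∧
      Halg ρ (restr φ H hφH) ((U.subgroupOf H : Subgroup H) : Set H) = (ℓ₁ : EReal) ∧
      Halg ρ (restr φ H hφH) (W : Set H) = (ℓ₂ : EReal) ∧
      ℓQ + ℓ₁ ≤ ℓG ∧ ℓG ≤ ℓQ + ℓ₂ := by
  -- the sequences
  have hT : IsTraj φ (seqS φ U) := isTraj_seqS hP hφ hU
  set S := seqS φ U with hSdef
  have hS1 : S 1 = U := seqS_one φ U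
  have hSc : ∀ n, IsCompact (S n : Set G) := fun n => (isCompact_seqS hP hφ hU n).1
  have hSo : IsOpen (S 1 : Set G) := by rw [hS1]; exact hU'
  have hfin := fin_of_compact_open hT hSo hSc
  obtain ⟨ℓG, -, hℓG⟩ := exists_rate hT hfin
  -- the quotient
  have hTQ := hT.map_quotient H hφH
  have hQc : ∀ n, IsCompact (((S n).map (QuotientGroup.mk' H) : Subgroup (G ⧸ H)) : Set (G ⧸ H)) := by
    intro n
    rw [Subgroup.coe_map]
    exact (hSc n).image QuotientGroup.continuous_mk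
  have hQo : IsOpen (((S 1).map (QuotientGroup.mk' H) : Subgroup (G ⧸ H)) : Set (G ⧸ H)) := by
    rw [Subgroup.coe_map]
    exact QuotientGroup.isOpenMap_coe _ hSo
  have hfinQ := fin_of_compact_open hTQ hQo hQc
  obtain ⟨ℓQ, -, hℓQ⟩ := exists_rate hTQ hfinQ
  obtain ⟨m₀, hm₀, -, hst⟩ := hTQ.exists_stable hfinQ
  -- the subgroup
  have hPH := hP.subgroup H
  have hemb : Topology.IsClosedEmbedding (Subtype.val : H → G) := hHc.isClosedEmbedding_subtypeVal
  have hφ' : Continuous (restr φ H hφH) := by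
    apply Continuous.subtype_mk
    exact hφ.comp continuous_subtype_val
  have hUHc : IsCompact ((U.subgroupOf H : Subgroup H) : Set H) := hemb.isCompact_preimage hU
  have hUHo : IsOpen ((U.subgroupOf H : Subgroup H) : Set H) :=
    hU'.preimage continuous_subtype_val
  set W : Subgroup H := (S (m₀ + 1)).subgroupOf H with hW
  have hWc : IsCompact (W : Set H) := hemb.isCompact_preimage (hSc (m₀ + 1))
  have hWo : IsOpen (W : Set H) :=
    (Subgroup.isOpen_mono (hT.mono (by omega : 1 ≤ m₀ + 1)) hSo).preimage continuous_subtype_val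
  have hT1 : IsTraj (restr φ H hφH) (seqS (restr φ H hφH) (U.subgroupOf H)) :=
    isTraj_seqS hPH hφ' hUHc
  have hT2 : IsTraj (restr φ H hφH) (seqS (restr φ H hφH) W) := isTraj_seqS hPH hφ' hWc
  set R1 := seqS (restr φ H hφH) (U.subgroupOf H) with hR1def
  set R2 := seqS (restr φ H hφH) W with hR2def
  have hR11 : R1 1 = U.subgroupOf H := seqS_one _ _
  have hR21 : R2 1 = W := seqS_one _ _
  have hR1c : ∀ n, IsCompact (R1 n : Set H) := fun n => (isCompact_seqS hPH hφ' hUHc n).1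
  have hR2c : ∀ n, IsCompact (R2 n : Set H) := fun n => (isCompact_seqS hPH hφ' hWc n).1
  have hR1o : IsOpen (R1 1 : Set H) := by rw [hR11]; exact hUHo
  have hR2o : IsOpen (R2 1 : Set H) := by rw [hR21]; exact hWo
  obtain ⟨ℓ₁, -, hℓ₁⟩ := exists_rate hT1 (fin_of_compact_open hT1 hR1o hR1c)
  obtain ⟨ℓ₂, -, hℓ₂⟩ := exists_rate hT2 (fin_of_compact_open hT2 hR2o hR2c)
  -- the rate of `S n ∩ H`
  have hSHc : ∀ n, IsCompact (((S n).subgroupOf H : Subgroup H) : Set H) := fun n =>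
    hemb.isCompact_preimage (hSc n)
  have hSHfin : ∀ n, (U.subgroupOf H).relIndex ((S n).subgroupOf H) ≠ 0 := fun n =>
    relIndex_ne_zero_of_open_compact hUHo (hSHc n)
  have hmid : Tendsto (fun n : ℕ =>
      Real.log (((U.subgroupOf H).relIndex ((S n).subgroupOf H) : ℕ) : ℝ) / n) atTop
      (𝓝 (ℓG - ℓQ)) := by
    refine (hℓG.sub hℓQ).congr' ?_
    filter_upwards [eventually_ge_atTop 1] with n hn
    have h1 := relIndex_extension H (hT.mono hn)
    have h2 : ((S 1).map (QuotientGroup.mk' H)).relIndex ((S n).map (QuotientGroup.mk' H)) ≠ 0 :=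
      relIndex_ne_zero_of_open_compact hQo (hQc n)
    have h3 := hSHfin n
    rw [h1, hS1]
    rw [hS1] at h2
    push_cast
    rw [Real.log_mul (by exact_mod_cast h2) (by exact_mod_cast h3)]
    ring
  have hlow : ℓ₁ ≤ ℓG - ℓQ := by
    refine le_of_tendsto_of_tendsto' hℓ₁ hmid (fun n => ?_)
    have hle : R1 n ≤ (S n).subgroupOf H := by
      apply hT.le_inf H hφH hT1
      rw [hR11, hS1]
    have h1 : (R1 1).relIndex (R1 n) ≤ (U.subgroupOf H).relIndex ((S n).subgroupOf H) := by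
      rw [hR11]
      exact Subgroup.relIndex_le_of_le_right hle (hSHfin n)
    have h2 : (R1 1).relIndex (R1 n) ≠ 0 := relIndex_ne_zero_of_open_compact hR1o (hR1c n)
    apply div_le_div_of_nonneg_right _ (Nat.cast_nonneg n)
    apply Real.log_le_log
    · exact_mod_cast Nat.pos_of_ne_zero h2
    · exact_mod_cast h1
  have hupp : ℓG - ℓQ ≤ ℓ₂ := by
    have hlim : Tendsto (fun n : ℕ =>
        Real.log (((U.subgroupOf H).relIndex W : ℕ) : ℝ) / n +
          Real.log (((R2 1).relIndex (R2 n) : ℕ) : ℝ) / n) atTop (𝓝 (0 + ℓ₂)) :=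
      Tendsto.add (tendsto_const_div_atTop_nhds_zero_nat _) hℓ₂
    rw [zero_add] at hlim
    refine le_of_tendsto_of_tendsto hmid hlim ?_
    filter_upwards [eventually_ge_atTop 1] with n hn
    obtain ⟨k, rfl⟩ : ∃ k, n = k + 1 := ⟨n - 1, by omega⟩
    have hle : (S (k + 1)).subgroupOf H ≤ R2 (k + 1) :=
      hT.inf_le H hφH le_rfl hst hT2 hR21 k
    have hUW : U.subgroupOf H ≤ W := by
      intro x hx
      have : (x : G) ∈ U := hx
      rw [← hS1] at this
      exact hT.mono (by omega : 1 ≤ m₀ + 1) this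
    have hWR : W ≤ R2 (k + 1) := by rw [← hR21]; exact hT2.one_le k
    have hUR : (U.subgroupOf H).relIndex (R2 (k + 1)) ≠ 0 :=
      relIndex_ne_zero_of_open_compact hUHo (hR2c _)
    have h1 : (U.subgroupOf H).relIndex ((S (k + 1)).subgroupOf H) ≤
        (U.subgroupOf H).relIndex W * (R2 1).relIndex (R2 (k + 1)) := by
      rw [hR21, Subgroup.relIndex_mul_relIndex _ _ _ hUW hWR]
      exact Subgroup.relIndex_le_of_le_right hle hUR
    have h2 : (U.subgroupOf H).relIndex W ≠ 0 := relIndex_ne_zero_of_open_compact hUHo hWc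
    have h3 : (R2 1).relIndex (R2 (k + 1)) ≠ 0 := relIndex_ne_zero_of_open_compact hR2o (hR2c _)
    rw [← add_div]
    apply div_le_div_of_nonneg_right _ (Nat.cast_nonneg _)
    rw [← Real.log_mul (by exact_mod_cast h2) (by exact_mod_cast h3)]
    apply Real.log_le_log
    · exact_mod_cast Nat.pos_of_ne_zero (hSHfin _)
    · exact_mod_cast h1
  refine ⟨ℓG, ℓQ, ℓ₁, ℓ₂, W, hWc, hWo, ?_, ?_, ?_, ?_, by linarith, by linarith⟩
  · have := Halg_eq hμ hT hSo hSc hℓG
    rwa [hS1] at this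
  · have := Halg_eq hν hTQ hQo hQc hℓQ
    rw [hS1, Subgroup.coe_map] at this
    exact this
  · have := Halg_eq hρ hT1 hR1o hR1c hℓ₁
    rwa [hR11] at this
  · have := Halg_eq hρ hT2 hR2o hR2c hℓ₂
    rwa [hR21] at this

theorem addition (hC : CoveredCO G) :
    halg μ φ = halg ν (QuotientGroup.map H H φ hφH) + halg ρ (restr φ H hφH) := by
  have hφQ : Continuous (QuotientGroup.map H H φ hφH) := by
    rw [(QuotientGroup.isQuotientMap_mk H).continuous_iff]
    have : (QuotientGroup.map H H φ hφH) ∘ (QuotientGroup.mk : G → G ⧸ H) =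
      (QuotientGroup.mk : G → G ⧸ H) ∘ φ := by
      funext x; rfl
    rw [this]
    exact QuotientGroup.continuous_mk.comp hφ
  have hφ' : Continuous (restr φ H hφH) := by
    apply Continuous.subtype_mk
    exact hφ.comp continuous_subtype_val
  have hemb : Topology.IsClosedEmbedding (Subtype.val : H → G) := hHc.isClosedEmbedding_subtypeVal
  apply le_antisymm
  · refine iSup₂_le fun C hCC => ?_
    obtain ⟨U, hU, hU', hCU⟩ := exists_co_of_isCompact' hP hC hCC.1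
    obtain ⟨ℓG, ℓQ, ℓ₁, ℓ₂, W, hWc, hWo, e1, e2, e3, e4, i1, i2⟩ :=
      main_ineq hP φ hφ H hHc hφH hμ hν hρ U hU hU'
    calc Halg μ φ C ≤ Halg μ φ (U : Set G) := Halg_mono hμ hφ hCU hCC.2 hU
      _ = (ℓG : EReal) := e1
      _ ≤ ((ℓQ + ℓ₂ : ℝ) : EReal) := by exact_mod_cast i2
      _ = (ℓQ : EReal) + (ℓ₂ : EReal) := EReal.coe_add _ _
      _ ≤ _ := by
        rw [← e2, ← e4]
        refine add_le_add ?_ ?_
        · refine le_iSup₂ (f := fun (U : Set (G ⧸ H)) (_ : IsCompact U ∧ U ∈ 𝓝 (1 : G ⧸ H)) =>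
            Halg ν (QuotientGroup.map H H φ hφH) U) _ ⟨hU.image QuotientGroup.continuous_mk, ?_⟩
          exact (QuotientGroup.isOpenMap_coe _ hU').mem_nhds ⟨1, U.one_mem, rfl⟩
        · exact le_iSup₂ (f := fun (U : Set H) (_ : IsCompact U ∧ U ∈ 𝓝 (1 : H)) =>
            Halg ρ (restr φ H hφH) U) _ ⟨hWc, hWo.mem_nhds W.one_mem⟩
  · apply EReal.add_le_of_forall_lt
    intro a ha b hb
    unfold halg at ha hb
    rw [lt_iSup_iff] at ha hb
    obtain ⟨C, ha⟩ := ha
    obtain ⟨C', hb⟩ := hb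
    rw [lt_iSup_iff] at ha hb
    obtain ⟨hCC, ha⟩ := ha
    obtain ⟨hCC', hb⟩ := hb
    obtain ⟨U1, hU1, hU1', hCU1⟩ := exists_co_of_isCompact hP hC H hCC.1
    obtain ⟨U2, hU2, hU2', hCU2⟩ := exists_co_of_isCompact' hP hC
      (hCC'.1.image continuous_subtype_val)
    obtain ⟨hU, hU'⟩ := sup_compact_open hP hU1 hU1' hU2
    obtain ⟨ℓG, ℓQ, ℓ₁, ℓ₂, W, hWc, hWo, e1, e2, e3, e4, i1, i2⟩ :=
      main_ineq hP φ hφ H hHc hφH hμ hν hρ (U1 ⊔ U2) hU hU'
    have hUHc : IsCompact (((U1 ⊔ U2).subgroupOf H : Subgroup H) : Set H) :=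
      hemb.isCompact_preimage hU
    calc a + b ≤ Halg ν (QuotientGroup.map H H φ hφH) C + Halg ρ (restr φ H hφH) C' :=
          add_le_add ha.le hb.le
      _ ≤ (ℓQ : EReal) + (ℓ₁ : EReal) := by
          rw [← e2, ← e3]
          refine add_le_add ?_ ?_
          · refine Halg_mono hν hφQ ?_ hCC.2 (hU.image QuotientGroup.continuous_mk)
            exact hCU1.trans (Set.image_mono (le_sup_left : U1 ≤ U1 ⊔ U2))
          · refine Halg_mono hρ hφ' ?_ hCC'.2 hUHc
            intro x hx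
            exact (le_sup_right : U2 ≤ U1 ⊔ U2) (hCU2 ⟨x, hx, rfl⟩)
      _ = ((ℓQ + ℓ₁ : ℝ) : EReal) := (EReal.coe_add _ _).symm
      _ ≤ (ℓG : EReal) := by exact_mod_cast i1
      _ = Halg μ φ ((U1 ⊔ U2 : Subgroup G) : Set G) := e1.symm
      _ ≤ halg μ φ := le_iSup₂ (f := fun (U : Set G) (_ : IsCompact U ∧ U ∈ 𝓝 (1 : G)) =>
            Halg μ φ U) _ ⟨hU, hU'.mem_nhds (U1 ⊔ U2).one_mem⟩

end main

end Pool.Agent.H33.Ent
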