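import Pool.Agent.H33.EntMain

/-!
Sanity check: right Haar measures in the sense of `IsRightHaar` exist on every locally compact group.
-/

set_option autoImplicit false

open scoped Pointwise Topology
open Filter MeasureTheory

namespace Pool.Agent.H33.Ent

theorem exists_isRightHaar (G : Type*) [Group G] [TopologicalSpace G] [IsTopologicalGroup G]
    [LocallyCompactSpace G] : ∃ μ : @Measure G (borel G), IsRightHaar μ := by
  letI : MeasurableSpace G := borel G
  haveI : BorelSpace G := ⟨rfl⟩
  refine ⟨(Measure.haar : Measure G).inv, ?_, ?_, ?_⟩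
  · intro K hK
    rw [Measure.inv_apply]
    exact hK.inv.measure_lt_top
  · intro U hU hne
    rw [Measure.inv_apply]
    exact hU.inv.measure_pos _ hne.inv
  · intro g s hs
    have h1 : (fun x : G => x * g) '' s = (fun x : G => x * g⁻¹) ⁻¹' s := by
      ext x
      constructor
      · rintro ⟨y, hy, rfl⟩; simpa using hy
      · intro hx; exact ⟨x * g⁻¹, hx, by simp⟩
    rw [h1, measure_preimage_mul_right]

end Pool.Agent.H33.Ent
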