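import Mathlib

/-!
The (unrestricted) wreath product `A ≀ ℤ` and commutator computations in it.
-/

set_option autoImplicit false

open scoped commutatorElement

namespace Pool.Agent.H33.Law

/-- The unrestricted wreath product of `A` with `ℤ`: pairs (lamp configuration, position). -/
@[ext] structure Wr (A : Type) where
  f : ℤ → A
  s : ℤ

namespace Wr

variable {A : Type} [Group A]

instance : Mul (Wr A) := ⟨fun x y => ⟨fun p => x.f p * y.f (p - x.s), x.s + y.s⟩⟩
instance : One (Wr A) := ⟨⟨fun _ => 1, 0⟩⟩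
instance : Inv (Wr A) := ⟨fun x => ⟨fun p => (x.f (p + x.s))⁻¹, -x.s⟩⟩

@[simp] lemma mul_f (x y : Wr A) (p : ℤ) : (x * y).f p = x.f p * y.f (p - x.s) := rfl
@[simp] lemma mul_s (x y : Wr A) : (x * y).s = x.s + y.s := rfl
@[simp] lemma one_f (p : ℤ) : (1 : Wr A).f p = 1 := rfl
@[simp] lemma one_s : (1 : Wr A).s = 0 := rfl
@[simp] lemma inv_f (x : Wr A) (p : ℤ) : (x⁻¹).f p = (x.f (p + x.s))⁻¹ := rfl
@[simp] lemma inv_s (x : Wr A) : (x⁻¹).s = -x.s := rfl

instance : Group (Wr A) where
  mul_assoc x y z := by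
    apply Wr.ext
    · funext p
      simp [mul_assoc, sub_sub]
    · simp [add_assoc]
  one_mul x := by
    apply Wr.ext
    · funext p; simp
    · simp
  mul_one x := by
    apply Wr.ext
    · funext p; simp
    · simp
  inv_mul_cancel x := by
    apply Wr.ext
    · funext p; simp
    · simp

/-- The position homomorphism. -/
def sHom : Wr A →* Multiplicative ℤ where
  toFun x := Multiplicative.ofAdd x.s
  map_one' := rfl
  map_mul' _ _ := rfl

lemma pow_s (x : Wr A) (k : ℕ) : (x ^ k).s = k * x.s := by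
  induction k with
  | zero => simp
  | succ k ih => rw [pow_succ, mul_s, ih]; push_cast; ring

lemma comm_f (x y : Wr A) (p : ℤ) :
    (⁅x, y⁆ : Wr A).f p = x.f p * y.f (p - x.s) * (x.f (p - y.s))⁻¹ * (y.f p)⁻¹ := by
  simp only [commutatorElement_def, mul_f, mul_s, inv_f, inv_s]
  have e1 : p - (x.s + y.s) + x.s = p - y.s := by ring
  have e2 : p - (x.s + y.s + -x.s) + y.s = p := by ring
  rw [e1, e2]

lemma comm_s (x y : Wr A) : (⁅x, y⁆ : Wr A).s = 0 := by
  simp [commutatorElement_def]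

lemma conj_f (g b : Wr A) (hb : b.s = 0) (p : ℤ) :
    (g * b * g⁻¹).f p = g.f p * b.f (p - g.s) * (g.f p)⁻¹ := by
  simp only [mul_f, mul_s, inv_f, hb]
  have e1 : p - (g.s + 0) + g.s = p := by ring
  rw [e1]

lemma conj_s (g b : Wr A) (hb : b.s = 0) : (g * b * g⁻¹).s = 0 := by
  simp [hb]

lemma comm_eq_one_iff (b c : Wr A) (hb : b.s = 0) (hc : c.s = 0) :
    ⁅b, c⁆ = 1 ↔ ∀ p, b.f p * c.f p = c.f p * b.f p := by
  rw [commutatorElement_eq_one_iff_mul_comm]
  constructor
  · intro h p
    have := congrArg (fun x : Wr A => x.f p) h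
    simpa [hb, hc] using this
  · intro h
    apply Wr.ext
    · funext p
      simpa [hb, hc] using h p
    · simp [hb, hc]

end Wr

end Pool.Agent.H33.Law
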