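import Pool.Agent.H33.LawLink
import Pool.Agent.H33.Wr

/-!
The centred walk on `A ≀ ℤ`: moment bounds, range bound and a lower bound for the law probability.
-/

set_option autoImplicit false

open scoped commutatorElement

namespace Pool.Agent.H33.Law

open Wr

section

variable {A : Type} [Group A] [Fintype A]

/-- the displacement of a centred step -/
def jj (ω : A × Fin 3 × A) : ℤ := (ω.2.1 : ℕ) - 1

/-- switch, walk, switch -/
def stepC (ω : A × Fin 3 × A) : Wr A :=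
  ⟨fun p => (if p = 0 then ω.1 else 1) * (if p = jj ω then ω.2.2 else 1), jj ω⟩

omit [Fintype A] in
lemma stepC_s (ω : A × Fin 3 × A) : (stepC ω).s = jj ω := rfl

lemma avgC (h : ℤ → ℝ) :
    (∑ ω : A × Fin 3 × A, h (jj ω)) / (Fintype.card (A × Fin 3 × A)) =
      (h (-1) + h 0 + h 1) / 3 := by
  have hA : (Fintype.card A : ℝ) ≠ 0 := by exact_mod_cast Fintype.card_ne_zero
  rw [Fintype.sum_prod_type]
  simp only [Fintype.sum_prod_type, jj, Finset.sum_const, Finset.card_univ, Fin.sum_univ_three,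
    Fintype.card_prod, Fintype.card_fin]
  simp only [nsmul_eq_mul]
  push_cast
  norm_num
  field_simp

lemma Ex_s_zero (n : ℕ) (c : ℝ) : Ex (stepC (A := A)) n (fun _ => c) = c := Ex_const _ _ _

lemma Ex_s_one (n : ℕ) : Ex (stepC (A := A)) n (fun x => (x.s : ℝ)) = 0 := by
  induction n with
  | zero => simp [Ex]
  | succ n ih =>
    simp only [Ex, mul_s, stepC_s]
    push_cast
    have h1 : ∀ ω : A × Fin 3 × A, Ex (stepC (A := A)) n (fun x => ((jj ω : ℤ) : ℝ) + (x.s : ℝ)) =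
        ((jj ω : ℤ) : ℝ) := by
      intro ω
      rw [Ex_add, ih, Ex_const, add_zero]
    simp only [h1]
    rw [avgC (fun j => (j : ℝ))]
    norm_num

lemma Ex_s_two (n : ℕ) : Ex (stepC (A := A)) n (fun x => (x.s : ℝ) ^ 2) = 2 * n / 3 := by
  induction n with
  | zero => simp [Ex]
  | succ n ih =>
    simp only [Ex, mul_s, stepC_s]
    have h1 : ∀ ω : A × Fin 3 × A, Ex (stepC (A := A)) n (fun x => (((jj ω + x.s : ℤ)) : ℝ) ^ 2) =
        ((jj ω : ℤ) : ℝ) ^ 2 + 2 * n / 3 := by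
      intro ω
      have h2 : (fun x : Wr A => (((jj ω + x.s : ℤ)) : ℝ) ^ 2) =
          (fun x : Wr A => (((jj ω : ℤ) : ℝ) ^ 2 + (2 * ((jj ω : ℤ) : ℝ)) * (x.s : ℝ)) +
            (x.s : ℝ) ^ 2) := by
        funext x; push_cast; ring
      rw [h2, Ex_add, Ex_add, Ex_const, Ex_smul, Ex_s_one, ih]
      ring
    simp only [h1]
    rw [avgC (fun j => (j : ℝ) ^ 2 + 2 * n / 3)]
    push_cast
    ring

lemma Ex_s_three (n : ℕ) : Ex (stepC (A := A)) n (fun x => (x.s : ℝ) ^ 3) = 0 := by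
  induction n with
  | zero => simp [Ex]
  | succ n ih =>
    simp only [Ex, mul_s, stepC_s]
    have h1 : ∀ ω : A × Fin 3 × A, Ex (stepC (A := A)) n (fun x => (((jj ω + x.s : ℤ)) : ℝ) ^ 3) =
        ((jj ω : ℤ) : ℝ) ^ 3 + 2 * n * ((jj ω : ℤ) : ℝ) := by
      intro ω
      have h2 : (fun x : Wr A => (((jj ω + x.s : ℤ)) : ℝ) ^ 3) =
          (fun x : Wr A => ((((jj ω : ℤ) : ℝ) ^ 3 + (3 * ((jj ω : ℤ) : ℝ) ^ 2) * (x.s : ℝ)) +
            (3 * ((jj ω : ℤ) : ℝ)) * (x.s : ℝ) ^ 2) + (x.s : ℝ) ^ 3) := by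
        funext x; push_cast; ring
      rw [h2, Ex_add, Ex_add, Ex_add, Ex_const, Ex_smul, Ex_smul, Ex_s_one, Ex_s_two, ih]
      ring
    simp only [h1]
    rw [avgC (fun j => (j : ℝ) ^ 3 + 2 * n * (j : ℝ))]
    push_cast
    ring

lemma Ex_s_four (n : ℕ) : Ex (stepC (A := A)) n (fun x => (x.s : ℝ) ^ 4) =
    4 / 3 * n ^ 2 - 2 / 3 * n := by
  induction n with
  | zero => simp [Ex]
  | succ n ih =>
    simp only [Ex, mul_s, stepC_s]
    have h1 : ∀ ω : A × Fin 3 × A, Ex (stepC (A := A)) n (fun x => (((jj ω + x.s : ℤ)) : ℝ) ^ 4) =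
        ((jj ω : ℤ) : ℝ) ^ 4 + 4 * n * ((jj ω : ℤ) : ℝ) ^ 2 + (4 / 3 * n ^ 2 - 2 / 3 * n) := by
      intro ω
      have h2 : (fun x : Wr A => (((jj ω + x.s : ℤ)) : ℝ) ^ 4) =
          (fun x : Wr A => (((((jj ω : ℤ) : ℝ) ^ 4 + (4 * ((jj ω : ℤ) : ℝ) ^ 3) * (x.s : ℝ)) +
            (6 * ((jj ω : ℤ) : ℝ) ^ 2) * (x.s : ℝ) ^ 2) + (4 * ((jj ω : ℤ) : ℝ)) * (x.s : ℝ) ^ 3) +
            (x.s : ℝ) ^ 4) := by
        funext x; push_cast; ring
      rw [h2, Ex_add, Ex_add, Ex_add, Ex_add, Ex_const, Ex_smul, Ex_smul, Ex_smul, Ex_s_one,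
        Ex_s_two, Ex_s_three, ih]
      ring
    simp only [h1]
    rw [avgC (fun j => (j : ℝ) ^ 4 + 4 * n * (j : ℝ) ^ 2 + (4 / 3 * n ^ 2 - 2 / 3 * n))]
    push_cast
    ring

/-- second moment of the difference of two independent displacements -/
lemma Ex_diff_two (n : ℕ) : Ex (stepC (A := A)) n (fun x => Ex (stepC (A := A)) n (fun y =>
    ((x.s : ℝ) - (y.s : ℝ)) ^ 2)) = 4 / 3 * n := by
  have h1 : ∀ x : Wr A, Ex (stepC (A := A)) n (fun y => ((x.s : ℝ) - (y.s : ℝ)) ^ 2) =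
      (x.s : ℝ) ^ 2 + 2 * n / 3 := by
    intro x
    have h2 : (fun y : Wr A => ((x.s : ℝ) - (y.s : ℝ)) ^ 2) =
        (fun y : Wr A => ((x.s : ℝ) ^ 2 + (-2 * (x.s : ℝ)) * (y.s : ℝ)) + (y.s : ℝ) ^ 2) := by
      funext y; ring
    rw [h2, Ex_add, Ex_add, Ex_const, Ex_smul, Ex_s_one, Ex_s_two]
    ring
  simp only [h1]
  rw [Ex_add, Ex_s_two, Ex_const]
  ring

/-- fourth moment of the difference of two independent displacements -/
lemma Ex_diff_four (n : ℕ) : Ex (stepC (A := A)) n (fun x => Ex (stepC (A := A)) n (fun y =>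
    ((x.s : ℝ) - (y.s : ℝ)) ^ 4)) = 16 / 3 * n ^ 2 - 4 / 3 * n := by
  have h1 : ∀ x : Wr A, Ex (stepC (A := A)) n (fun y => ((x.s : ℝ) - (y.s : ℝ)) ^ 4) =
      ((x.s : ℝ) ^ 4 + (4 * n) * (x.s : ℝ) ^ 2) + (4 / 3 * n ^ 2 - 2 / 3 * n) := by
    intro x
    have h2 : (fun y : Wr A => ((x.s : ℝ) - (y.s : ℝ)) ^ 4) =
        (fun y : Wr A => ((((x.s : ℝ) ^ 4 + (-4 * (x.s : ℝ) ^ 3) * (y.s : ℝ)) +
          (6 * (x.s : ℝ) ^ 2) * (y.s : ℝ) ^ 2) + (-4 * (x.s : ℝ)) * (y.s : ℝ) ^ 3) +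
          (y.s : ℝ) ^ 4) := by
      funext y; ring
    rw [h2, Ex_add, Ex_add, Ex_add, Ex_add, Ex_const, Ex_smul, Ex_smul, Ex_smul, Ex_s_one,
      Ex_s_two, Ex_s_three, Ex_s_four]
    ring
  simp only [h1]
  rw [Ex_add, Ex_add, Ex_s_four, Ex_smul, Ex_s_two, Ex_const]
  ring

/-- `x`, started at position `c`, stays within distance `√M` of the origin (as far as its lamps and
its final position show). -/
def Good (M c : ℤ) (x : Wr A) : Prop :=
  c ^ 2 ≤ M ∧ (∀ p, x.f p ≠ 1 → (c + p) ^ 2 ≤ M) ∧ (c + x.s) ^ 2 ≤ M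

open Classical in
/-- indicator of the complement of `Good` -/
noncomputable def bad (M c : ℤ) (x : Wr A) : ℝ := if Good M c x then 0 else 1

omit [Fintype A] in
lemma bad_nonneg (M c : ℤ) (x : Wr A) : 0 ≤ bad M c x := by
  unfold bad; split_ifs <;> norm_num

omit [Fintype A] in
lemma bad_le_one (M c : ℤ) (x : Wr A) : bad M c x ≤ 1 := by
  unfold bad; split_ifs <;> norm_num

omit [Fintype A] in
lemma good_step {M c : ℤ} (ω : A × Fin 3 × A) (x : Wr A) (hc : c ^ 2 ≤ M)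
    (h : Good M (c + jj ω) x) : Good M c (stepC ω * x) := by
  obtain ⟨h1, h2, h3⟩ := h
  refine ⟨hc, ?_, ?_⟩
  · intro p hp
    by_cases hp0 : p = 0
    · subst hp0; simpa using hc
    · by_cases hpj : p = jj ω
      · subst hpj; exact h1
      · have : x.f (p - jj ω) ≠ 1 := by
          simpa [stepC, hp0, hpj] using hp
        have h4 := h2 _ this
        have e : c + jj ω + (p - jj ω) = c + p := by ring
        rwa [e] at h4
  · rw [mul_s, stepC_s]
    have e : c + (jj ω + x.s) = c + jj ω + x.s := by ring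
    rw [e]
    exact h3

lemma Ex_bad (M : ℤ) (n : ℕ) (c : ℤ) :
    (M : ℝ) * Ex (stepC (A := A)) n (bad M c) ≤ (c : ℝ) ^ 2 + 2 * n / 3 := by
  induction n generalizing c with
  | zero =>
    simp only [Ex]
    by_cases h : c ^ 2 ≤ M
    · have hg : Good M c (1 : Wr A) := by
        refine ⟨h, ?_, by simpa using h⟩
        intro p hp
        exact absurd rfl hp
      simp only [bad, if_pos hg]
      have : (0 : ℝ) ≤ (c : ℝ) ^ 2 := sq_nonneg _
      simp [this]
    · push Not at h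
      have h1 : (M : ℝ) < (c : ℝ) ^ 2 := by exact_mod_cast h
      have hg : ¬ Good M c (1 : Wr A) := fun hg => absurd hg.1 (not_le.2 h)
      simp only [bad, if_neg hg]
      simp
      exact h1.le
  | succ n ih =>
    by_cases h : c ^ 2 ≤ M
    · simp only [Ex]
      have h1 : ∀ ω : A × Fin 3 × A,
          Ex (stepC (A := A)) n (fun x => bad M c (stepC ω * x)) ≤
            Ex (stepC (A := A)) n (bad M (c + jj ω)) := by
        intro ω
        apply Ex_mono
        intro x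
        by_cases hg : Good M (c + jj ω) x
        · have := good_step ω x h hg
          simp only [bad, if_pos hg, if_pos this]; exact le_refl 0
        · simp only [bad, if_neg hg]
          exact bad_le_one M c _
      have hM : (0 : ℝ) ≤ M := by
        have : (0 : ℝ) ≤ (c : ℝ) ^ 2 := sq_nonneg _
        have h2 : (c : ℝ) ^ 2 ≤ M := by exact_mod_cast h
        linarith
      calc (M : ℝ) * ((∑ ω : A × Fin 3 × A,
            Ex (stepC (A := A)) n (fun x => bad M c (stepC ω * x))) /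
              Fintype.card (A × Fin 3 × A))
          = (∑ ω : A × Fin 3 × A,
            (M : ℝ) * Ex (stepC (A := A)) n (fun x => bad M c (stepC ω * x))) /
              Fintype.card (A × Fin 3 × A) := by
            rw [← mul_div_assoc, Finset.mul_sum]
        _ ≤ (∑ ω : A × Fin 3 × A, (((c + jj ω : ℤ) : ℝ) ^ 2 + 2 * n / 3)) /
              Fintype.card (A × Fin 3 × A) := by
            apply div_le_div_of_nonneg_right _ (Nat.cast_nonneg _)
            refine Finset.sum_le_sum fun ω _ => ?_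
            exact (mul_le_mul_of_nonneg_left (h1 ω) hM).trans (ih _)
        _ = (c : ℝ) ^ 2 + 2 * ((n + 1 : ℕ) : ℝ) / 3 := by
            rw [avgC (fun j => ((c + j : ℤ) : ℝ) ^ 2 + 2 * n / 3)]
            push_cast
            ring
    · push Not at h
      have h1 : (M : ℝ) < (c : ℝ) ^ 2 := by exact_mod_cast h
      have h2 : Ex (stepC (A := A)) (n + 1) (bad M c) ≤ 1 := by
        rw [← Ex_const (stepC (A := A)) (n + 1) 1]
        exact Ex_mono _ _ fun x => bad_le_one M c x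
      have h3 : 0 ≤ Ex (stepC (A := A)) (n + 1) (bad M c) := Ex_nonneg _ _ fun x => bad_nonneg M c x
      have h4 : (0 : ℝ) ≤ 2 * ((n + 1 : ℕ) : ℝ) / 3 := by positivity
      by_cases hM : (0 : ℝ) ≤ M
      · nlinarith
      · push Not at hM
        nlinarith [sq_nonneg (c : ℝ)]

end

end Pool.Agent.H33.Law
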