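import Pool.Agent.H33.LawCentered

/-!
The centred walk satisfies the word with probability bounded below.
-/

set_option autoImplicit false

open scoped commutatorElement

namespace Pool.Agent.H33.Law

open Wr

/-- The word `[[x₀, x₁], g [x₂, x₃] g⁻¹]` with `g = x₀¹⁰⁰ x₁⁻¹⁰⁰`. -/
def wd : FreeGroup (Fin 4) :=
  let x : FreeGroup (Fin 4) := FreeGroup.of 0
  let y : FreeGroup (Fin 4) := FreeGroup.of 1
  let z : FreeGroup (Fin 4) := FreeGroup.of 2
  let u : FreeGroup (Fin 4) := FreeGroup.of 3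
  ⁅⁅x, y⁆, (x ^ 100 * (y ^ 100)⁻¹) * ⁅z, u⁆ * (x ^ 100 * (y ^ 100)⁻¹)⁻¹⁆

lemma lift_wd {Γ : Type} [Group Γ] (x y z u : Γ) :
    FreeGroup.lift (![x, y, z, u] : Fin 4 → Γ) wd =
      ⁅⁅x, y⁆, (x ^ 100 * (y ^ 100)⁻¹) * ⁅z, u⁆ * (x ^ 100 * (y ^ 100)⁻¹)⁻¹⁆ := by
  simp [wd, commutatorElement_def]

section

variable {A : Type} [Group A]

/-- The commutation criterion for the word in `A ≀ ℤ`. -/
lemma wd_eq_one_iff (x y z u : Wr A) :
    FreeGroup.lift (![x, y, z, u] : Fin 4 → Wr A) wd = 1 ↔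
      ∀ p, (⁅x, y⁆ : Wr A).f p *
          ((x ^ 100 * (y ^ 100)⁻¹).f p * (⁅z, u⁆ : Wr A).f (p - 100 * (x.s - y.s)) *
            ((x ^ 100 * (y ^ 100)⁻¹).f p)⁻¹) =
        ((x ^ 100 * (y ^ 100)⁻¹).f p * (⁅z, u⁆ : Wr A).f (p - 100 * (x.s - y.s)) *
            ((x ^ 100 * (y ^ 100)⁻¹).f p)⁻¹) * (⁅x, y⁆ : Wr A).f p := by
  rw [lift_wd, comm_eq_one_iff _ _ (comm_s x y) (conj_s _ _ (comm_s z u))]
  have hs : (x ^ 100 * (y ^ 100)⁻¹).s = 100 * (x.s - y.s) := by
    rw [mul_s, inv_s, pow_s, pow_s]; push_cast; ring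
  simp only [conj_f _ _ (comm_s z u), hs]

lemma comm_support {M : ℤ} {x y : Wr A} (hx : Good M 0 x) (hy : Good M 0 y) {p : ℤ}
    (hp : (⁅x, y⁆ : Wr A).f p ≠ 1) : p ^ 2 ≤ 4 * M := by
  obtain ⟨hM, hx1, hx2⟩ := hx
  obtain ⟨-, hy1, hy2⟩ := hy
  simp only [zero_add] at hx1 hx2 hy1 hy2
  have hM0 : 0 ≤ M := by simpa using hM
  rw [comm_f] at hp
  by_contra hcon
  push Not at hcon
  apply hp
  have e1 : x.f p = 1 := by
    by_contra h; have := hx1 _ h; nlinarith
  have e2 : y.f (p - x.s) = 1 := by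
    by_contra h
    have := hy1 _ h
    nlinarith [sq_nonneg (p - x.s - x.s)]
  have e3 : x.f (p - y.s) = 1 := by
    by_contra h
    have := hx1 _ h
    nlinarith [sq_nonneg (p - y.s - y.s)]
  have e4 : y.f p = 1 := by
    by_contra h; have := hy1 _ h; nlinarith
  rw [e1, e2, e3, e4]; simp

lemma wd_triv {n : ℤ} (hn : 1 ≤ n) {x y z u : Wr A} (hx : Good (100 * n) 0 x)
    (hy : Good (100 * n) 0 y) (hz : Good (100 * n) 0 z) (hu : Good (100 * n) 0 u)
    (hd : n ≤ 3 * (x.s - y.s) ^ 2) : FreeGroup.lift (![x, y, z, u] : Fin 4 → Wr A) wd = 1 := by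
  rw [wd_eq_one_iff]
  intro p
  by_cases h1 : (⁅x, y⁆ : Wr A).f p = 1
  · rw [h1]; simp
  by_cases h2 : (⁅z, u⁆ : Wr A).f (p - 100 * (x.s - y.s)) = 1
  · rw [h2]; simp
  exfalso
  have i1 := comm_support hx hy h1
  have i2 := comm_support hz hu h2
  nlinarith [sq_nonneg (p + (p - 100 * (x.s - y.s)))]

variable [Fintype A]

open Classical in
/-- indicator of the law -/
noncomputable def Fw (x y z u : Wr A) : ℝ :=
  if FreeGroup.lift (![x, y, z, u] : Fin 4 → Wr A) wd = 1 then 1 else 0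

omit [Fintype A] in
lemma Fw_nonneg (x y z u : Wr A) : 0 ≤ Fw x y z u := by
  unfold Fw; split_ifs <;> norm_num

omit [Fintype A] in
lemma Fw_le_one (x y z u : Wr A) : Fw x y z u ≤ 1 := by
  unfold Fw; split_ifs <;> norm_num

omit [Fintype A] in
lemma Fw_eq_one {x y z u : Wr A} (h : FreeGroup.lift (![x, y, z, u] : Fin 4 → Wr A) wd = 1) :
    Fw x y z u = 1 := if_pos h

omit [Fintype A] in
lemma Fw_eq_zero {x y z u : Wr A} (h : FreeGroup.lift (![x, y, z, u] : Fin 4 → Wr A) wd ≠ 1) :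
    Fw x y z u = 0 := if_neg h

omit [Fintype A] in
/-- pointwise lower bound -/
lemma Fw_ge {n : ℕ} (hn : 1 ≤ n) (x y z u : Wr A) :
    4 / (25 * (n : ℝ) ^ 2) * (((17 / 3 * n) * ((x.s : ℝ) - y.s) ^ 2 - ((x.s : ℝ) - y.s) ^ 4) -
      16 / 9 * (n : ℝ) ^ 2) -
      (bad (100 * n) 0 x + bad (100 * n) 0 y + bad (100 * n) 0 z + bad (100 * n) 0 u) ≤
      Fw x y z u := by
  have hn' : (1 : ℝ) ≤ n := by exact_mod_cast hn
  set v := ((x.s : ℝ) - y.s) ^ 2 with hv
  have hv4 : ((x.s : ℝ) - y.s) ^ 4 = v ^ 2 := by rw [hv]; ring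
  rw [hv4]
  have hq : 4 / (25 * (n : ℝ) ^ 2) * (((17 / 3 * n) * v - v ^ 2) - 16 / 9 * (n : ℝ) ^ 2) =
      4 / (25 * (n : ℝ) ^ 2) * ((v - n / 3) * (16 / 3 * n - v)) := by ring
  rw [hq]
  have hpos : 0 < 25 * (n : ℝ) ^ 2 := by positivity
  have hq1 : 4 / (25 * (n : ℝ) ^ 2) * ((v - n / 3) * (16 / 3 * n - v)) ≤ 1 := by
    rw [div_mul_eq_mul_div, div_le_one hpos]
    nlinarith [sq_nonneg (2 * v - 17 / 3 * n)]
  have hFw := Fw_nonneg x y z u
  by_cases gx : Good (100 * n) 0 x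
  · by_cases gy : Good (100 * n) 0 y
    · by_cases gz : Good (100 * n) 0 z
      · by_cases gu : Good (100 * n) 0 u
        · simp only [bad, if_pos gx, if_pos gy, if_pos gz, if_pos gu]
          by_cases hd : (n : ℤ) ≤ 3 * (x.s - y.s) ^ 2
          · rw [Fw_eq_one (wd_triv (by exact_mod_cast hn) gx gy gz gu hd)]
            linarith
          · push Not at hd
            have hd' : 3 * v < n := by
              rw [hv]
              exact_mod_cast hd
            have h3 : (v - n / 3) * (16 / 3 * n - v) ≤ 0 := by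
              apply mul_nonpos_of_nonpos_of_nonneg
              · linarith
              · have : (0 : ℝ) ≤ n := by linarith
                linarith
            have h4 : 4 / (25 * (n : ℝ) ^ 2) * ((v - n / 3) * (16 / 3 * n - v)) ≤ 0 :=
              mul_nonpos_of_nonneg_of_nonpos (by positivity) h3
            linarith
        · have : bad (100 * n) 0 u = 1 := if_neg gu
          have h1 := bad_nonneg (100 * (n : ℤ)) 0 x
          have h2 := bad_nonneg (100 * (n : ℤ)) 0 y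
          have h3 := bad_nonneg (100 * (n : ℤ)) 0 z
          linarith
      · have : bad (100 * n) 0 z = 1 := if_neg gz
        have h1 := bad_nonneg (100 * (n : ℤ)) 0 x
        have h2 := bad_nonneg (100 * (n : ℤ)) 0 y
        have h3 := bad_nonneg (100 * (n : ℤ)) 0 u
        linarith
    · have : bad (100 * n) 0 y = 1 := if_neg gy
      have h1 := bad_nonneg (100 * (n : ℤ)) 0 x
      have h2 := bad_nonneg (100 * (n : ℤ)) 0 z
      have h3 := bad_nonneg (100 * (n : ℤ)) 0 u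
      linarith
  · have : bad (100 * n) 0 x = 1 := if_neg gx
    have h1 := bad_nonneg (100 * (n : ℤ)) 0 y
    have h2 := bad_nonneg (100 * (n : ℤ)) 0 z
    have h3 := bad_nonneg (100 * (n : ℤ)) 0 u
    linarith

lemma Ex_bad' {n : ℕ} (hn : 1 ≤ n) : Ex (stepC (A := A)) n (bad (100 * n) 0) ≤ 1 / 150 := by
  have h := Ex_bad (A := A) (100 * n) n 0
  have hn' : (1 : ℝ) ≤ n := by exact_mod_cast hn
  push_cast at h
  have h2 : (n : ℝ) * (100 * Ex (stepC (A := A)) n (bad (100 * n) 0)) ≤ n * (2 / 3) := by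
    nlinarith
  have h3 := le_of_mul_le_mul_left h2 (by linarith)
  linarith

/-- The centred walk satisfies the word with probability at least `2/45`. -/
theorem centered_lower {n : ℕ} (hn : 1 ≤ n) :
    (2 / 45 : ℝ) ≤ Ex (stepC (A := A)) n fun x => Ex (stepC (A := A)) n fun y =>
      Ex (stepC (A := A)) n fun z => Ex (stepC (A := A)) n fun u => Fw x y z u := by
  have hn' : (1 : ℝ) ≤ n := by exact_mod_cast hn
  set E := Ex (stepC (A := A)) n with hE
  set c : ℝ := 4 / (25 * (n : ℝ) ^ 2) with hc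
  set β := E (bad (100 * n) 0) with hβ
  have hβ' : β ≤ 1 / 150 := Ex_bad' hn
  -- integrate out `u`, then `z`
  have s1 : ∀ x y z : Wr A,
      (c * (((17 / 3 * n) * ((x.s : ℝ) - y.s) ^ 2 - ((x.s : ℝ) - y.s) ^ 4) -
        16 / 9 * (n : ℝ) ^ 2) - bad (100 * n) 0 x - bad (100 * n) 0 y - bad (100 * n) 0 z) - β ≤
      E fun u => Fw x y z u := by
    intro x y z
    calc _ = E (fun u => (c * (((17 / 3 * n) * ((x.s : ℝ) - y.s) ^ 2 - ((x.s : ℝ) - y.s) ^ 4) -
          16 / 9 * (n : ℝ) ^ 2) - bad (100 * n) 0 x - bad (100 * n) 0 y - bad (100 * n) 0 z) -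
            bad (100 * n) 0 u) := by
          rw [hE, Ex_sub, Ex_const]
      _ ≤ _ := by
          apply Ex_mono
          intro u
          refine le_trans (le_of_eq ?_) (Fw_ge hn x y z u)
          ring
  have s2 : ∀ x y : Wr A,
      (c * (((17 / 3 * n) * ((x.s : ℝ) - y.s) ^ 2 - ((x.s : ℝ) - y.s) ^ 4) -
        16 / 9 * (n : ℝ) ^ 2) - bad (100 * n) 0 x - bad (100 * n) 0 y - β) - β ≤
      E fun z => E fun u => Fw x y z u := by
    intro x y
    calc _ = E (fun z => (c * (((17 / 3 * n) * ((x.s : ℝ) - y.s) ^ 2 - ((x.s : ℝ) - y.s) ^ 4) -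
          16 / 9 * (n : ℝ) ^ 2) - bad (100 * n) 0 x - bad (100 * n) 0 y - β) -
            bad (100 * n) 0 z) := by
          rw [hE, Ex_sub, Ex_const]
      _ ≤ _ := by
          apply Ex_mono
          intro z
          refine le_trans (le_of_eq ?_) (s1 x y z)
          ring
  have s3 : c * (((17 / 3 * n) * (4 / 3 * n) - (16 / 3 * n ^ 2 - 4 / 3 * n)) -
        16 / 9 * (n : ℝ) ^ 2) - β - β - β - β ≤
      E fun x => E fun y => E fun z => E fun u => Fw x y z u := by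
    have t1 : ∀ x : Wr A, E (fun y =>
        ((c * (17 / 3 * n)) * ((x.s : ℝ) - y.s) ^ 2 - c * ((x.s : ℝ) - y.s) ^ 4) -
          bad (100 * n) 0 y) =
        ((c * (17 / 3 * n)) * E (fun y => ((x.s : ℝ) - y.s) ^ 2) -
          c * E (fun y => ((x.s : ℝ) - y.s) ^ 4)) - β := by
      intro x
      rw [hE, Ex_sub, Ex_sub, Ex_smul, Ex_smul]
    have t2 : E (fun x => E (fun y =>
        ((c * (17 / 3 * n)) * ((x.s : ℝ) - y.s) ^ 2 - c * ((x.s : ℝ) - y.s) ^ 4) -
          bad (100 * n) 0 y)) =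
        ((c * (17 / 3 * n)) * (4 / 3 * n) - c * (16 / 3 * n ^ 2 - 4 / 3 * n)) - β := by
      simp only [t1]
      rw [hE, Ex_sub, Ex_sub, Ex_smul, Ex_smul, Ex_const, Ex_diff_two, Ex_diff_four]
    have t3 : E (fun x => (E (fun y =>
        ((c * (17 / 3 * n)) * ((x.s : ℝ) - y.s) ^ 2 - c * ((x.s : ℝ) - y.s) ^ 4) -
          bad (100 * n) 0 y) - bad (100 * n) 0 x) - (c * (16 / 9 * (n : ℝ) ^ 2) + β + β)) ≤
        E fun x => E fun y => E fun z => E fun u => Fw x y z u := by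
      apply Ex_mono
      intro x
      calc _ = E (fun y => (((c * (17 / 3 * n)) * ((x.s : ℝ) - y.s) ^ 2 -
            c * ((x.s : ℝ) - y.s) ^ 4) - bad (100 * n) 0 y) -
              (bad (100 * n) 0 x + (c * (16 / 9 * (n : ℝ) ^ 2) + β + β))) := by
            rw [hE, Ex_sub (step := stepC) n (fun y : Wr A => ((c * (17 / 3 * n)) *
              ((x.s : ℝ) - y.s) ^ 2 - c * ((x.s : ℝ) - y.s) ^ 4) - bad (100 * n) 0 y)
              (fun _ => bad (100 * n) 0 x + (c * (16 / 9 * (n : ℝ) ^ 2) + β + β)), Ex_const]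
            ring
        _ ≤ _ := by
            apply Ex_mono
            intro y
            refine le_trans (le_of_eq ?_) (s2 x y)
            ring
    refine le_trans (le_of_eq ?_) t3
    rw [hE, Ex_sub, Ex_sub, Ex_const, ← hE, t2]
    ring
  refine le_trans ?_ s3
  have h1 : c * (((17 / 3 * n) * (4 / 3 * n) - (16 / 3 * n ^ 2 - 4 / 3 * n)) -
        16 / 9 * (n : ℝ) ^ 2) = 16 / 225 + 16 / (75 * n) := by
    rw [hc]
    field_simp
    ring
  rw [h1]
  have h2 : (0 : ℝ) ≤ 16 / (75 * n) := by positivity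
  linarith

end

end Pool.Agent.H33.Law
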