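import Mathlib

/-!
Definitions: random walk measures on a group and the probability that a word is satisfied.
-/

set_option autoImplicit false

open Filter
open scoped ENNReal

namespace Pool.Agent.H33.Law

/-- `walk μ n` is the convolution power `μ^{*n}`: the law after `n` steps of the random walk on `G`
with step distribution `μ` (`walk μ 0` is the Dirac mass at `1`, `walk μ (n+1) = μ * walk μ n`). -/
noncomputable def walk {G : Type} [Group G] (μ : PMF G) : ℕ → PMF G
  | 0 => PMF.pure 1
  | n + 1 => μ.bind fun s => (walk μ n).map fun x => s * x

/-- `(μ^{*n})^{⊗d} {g : w(g_1, …, g_d) = 1}`, for a word `w` in `d` letters. -/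
noncomputable def lawProb {G : Type} [Group G] (μ : PMF G) {d : ℕ} (w : FreeGroup (Fin d))
    (n : ℕ) : ℝ≥0∞ :=
  ∑' g : Fin d → G,
    Set.indicator {g : Fin d → G | FreeGroup.lift g w = 1} (fun g => ∏ i, walk μ n (g i)) g

/-- `Pr_μ(w = 1 on G)`: the limsup over `n` of the probability that `d` independent `n`-step walks
satisfy `w`. -/
noncomputable def lawPr {G : Type} [Group G] (μ : PMF G) {d : ℕ} (w : FreeGroup (Fin d)) : ℝ≥0∞ :=
  limsup (fun n : ℕ => lawProb μ w n) atTop

/-- Step distributions of random walk measures: finitely supported, the support generates the group,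
and the identity has positive mass. -/
structure IsRandomWalkMeasure {G : Type} [Group G] (μ : PMF G) : Prop where
  finite_support : μ.support.Finite
  generates : Subgroup.closure μ.support = ⊤
  one_pos : 0 < μ 1

end Pool.Agent.H33.Law
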