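import Pool.Agent.H33.LawCentered2

/-!
The drifting walk on `A ≀ ℤ`: explicit law and an upper bound for the law probability.
-/

set_option autoImplicit false

open scoped commutatorElement

namespace Pool.Agent.H33.Law

open Wr

section

variable {A : Type} [Group A]

/-- write the lamp `a`, then step to the right -/
def up (a : A) : Wr A := ⟨fun p => if p = 0 then a else 1, 1⟩

/-- lazy drifting step -/
def stepD (ω : Bool × A) : Wr A := if ω.1 then up ω.2 else 1

/-- the element with lamps `f` on `[0, k)` and position `k` -/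
def Lk (k : ℕ) (f : Fin k → A) : Wr A :=
  ⟨fun p => if h : 0 ≤ p ∧ p < k then f ⟨p.toNat, by omega⟩ else 1, k⟩

lemma Lk_s (k : ℕ) (f : Fin k → A) : (Lk k f).s = k := rfl

lemma Lk_f_of_neg {k : ℕ} (f : Fin k → A) {p : ℤ} (hp : p < 0) : (Lk k f).f p = 1 := by
  simp only [Lk]
  rw [dif_neg]
  omega

lemma Lk_f_of_mem {k : ℕ} (f : Fin k → A) {p : ℤ} (j : Fin k) (hj : (j : ℤ) = p) :
    (Lk k f).f p = f j := by
  simp only [Lk]
  rw [dif_pos ⟨by omega, by omega⟩]
  congr 1
  apply Fin.ext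
  simp
  omega

lemma Lk_zero (f : Fin 0 → A) : Lk 0 f = 1 := by
  apply Wr.ext
  · funext p
    simp only [Lk, one_f]
    rw [dif_neg]
    simp
  · simp [Lk]

lemma up_mul_Lk (k : ℕ) (a : A) (f : Fin k → A) :
    up a * Lk k f = Lk (k + 1) (Fin.cons a f) := by
  apply Wr.ext
  · funext p
    rw [mul_f]
    show (if p = 0 then a else 1) * (Lk k f).f (p - 1) = _
    by_cases h0 : p = 0
    · subst h0
      rw [if_pos rfl, Lk_f_of_neg f (by norm_num), mul_one,
        Lk_f_of_mem (Fin.cons a f : Fin (k + 1) → A) (0 : Fin (k + 1)) (by simp)]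
      rfl
    · rw [if_neg h0, one_mul]
      by_cases h1 : 0 ≤ p - 1 ∧ p - 1 < k
      · have hj : ((⟨(p - 1).toNat, by omega⟩ : Fin k) : ℤ) = p - 1 := by simp; omega
        rw [Lk_f_of_mem f ⟨(p - 1).toNat, by omega⟩ hj,
          Lk_f_of_mem (Fin.cons a f : Fin (k + 1) → A) (Fin.succ ⟨(p - 1).toNat, by omega⟩)
            (by simp only [Fin.val_succ]; push_cast; omega)]
        rw [Fin.cons_succ]
      · have e1 : (Lk k f).f (p - 1) = 1 := by
          simp only [Lk]; rw [dif_neg h1]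
        have e2 : (Lk (k + 1) (Fin.cons a f : Fin (k + 1) → A)).f p = 1 := by
          simp only [Lk]; rw [dif_neg]
          push_cast
          omega
        rw [e1, e2]
  · rw [mul_s, Lk_s, Lk_s]
    show (1 : ℤ) + k = _
    push_cast
    ring

variable [Fintype A]

/-- average over the lamps, position fixed -/
noncomputable def M (k : ℕ) (F : Wr A → ℝ) : ℝ :=
  (∑ f : Fin k → A, F (Lk k f)) / (Fintype.card A : ℝ) ^ k

lemma M_zero (F : Wr A → ℝ) : M 0 F = F 1 := by
  unfold M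
  rw [Fintype.sum_unique, Lk_zero]
  simp

lemma M_add (k : ℕ) (F G : Wr A → ℝ) : M k (fun x => F x + G x) = M k F + M k G := by
  unfold M
  rw [Finset.sum_add_distrib, add_div]

lemma M_half (k : ℕ) (F : Wr A → ℝ) : M k (fun x => F x / 2) = M k F / 2 := by
  unfold M
  rw [← Finset.sum_div]
  ring

lemma M_succ (k : ℕ) (F : Wr A → ℝ) :
    M (k + 1) F = (∑ a : A, M k (fun x => F (up a * x))) / Fintype.card A := by
  unfold M
  have h1 : ∑ f : Fin (k + 1) → A, F (Lk (k + 1) f) =
      ∑ a : A, ∑ f : Fin k → A, F (up a * Lk k f) := by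
    rw [← Fintype.sum_prod_type']
    refine (Fintype.sum_equiv (Fin.consEquiv (fun _ : Fin (k + 1) => A)) _ _ ?_).symm
    rintro ⟨a, f⟩
    simp only
    rw [up_mul_Lk]
    rfl
  rw [h1, ← Finset.sum_div, div_div, pow_succ]

lemma card_ne : (Fintype.card A : ℝ) ≠ 0 := by
  have : Fintype.card A ≠ 0 := Fintype.card_ne_zero
  exact_mod_cast this

lemma M_const (k : ℕ) (c : ℝ) : M (A := A) k (fun _ => c) = c := by
  unfold M
  rw [Finset.sum_const, Finset.card_univ, nsmul_eq_mul, Fintype.card_fun, Fintype.card_fin]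
  push_cast
  have := card_ne (A := A)
  field_simp

lemma M_mono (k : ℕ) {F G : Wr A → ℝ} (h : ∀ f : Fin k → A, F (Lk k f) ≤ G (Lk k f)) :
    M k F ≤ M k G := by
  unfold M
  apply div_le_div_of_nonneg_right _ (by positivity)
  exact Finset.sum_le_sum fun f _ => h f

lemma M_comm (k l : ℕ) (F : Wr A → Wr A → ℝ) :
    M k (fun x => M l (fun y => F x y)) = M l (fun y => M k (fun x => F x y)) := by
  unfold M
  rw [← Finset.sum_div, ← Finset.sum_div, Finset.sum_comm, div_div, div_div, mul_comm]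

/-- binomial expectation -/
noncomputable def B : ℕ → (ℕ → ℝ) → ℝ
  | 0, h => h 0
  | n + 1, h => (B n h + B n (fun k => h (k + 1))) / 2

lemma B_add (n : ℕ) (h g : ℕ → ℝ) : B n (fun k => h k + g k) = B n h + B n g := by
  induction n generalizing h g with
  | zero => rfl
  | succ n ih => simp only [B, ih]; ring

lemma B_smul (n : ℕ) (c : ℝ) (h : ℕ → ℝ) : B n (fun k => c * h k) = c * B n h := by
  induction n generalizing h with
  | zero => rfl
  | succ n ih => simp only [B, ih]; ring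

lemma B_const (n : ℕ) (c : ℝ) : B n (fun _ => c) = c := by
  induction n with
  | zero => rfl
  | succ n ih => simp only [B, ih]; ring

lemma B_mono (n : ℕ) {h g : ℕ → ℝ} (hg : ∀ k, h k ≤ g k) : B n h ≤ B n g := by
  induction n generalizing h g with
  | zero => exact hg 0
  | succ n ih =>
    simp only [B]
    have := ih hg
    have := ih fun k => hg (k + 1)
    linarith

lemma B_sum (n : ℕ) {ι : Type} (s : Finset ι) (h : ι → ℕ → ℝ) :
    B n (fun k => ∑ i ∈ s, h i k) = ∑ i ∈ s, B n (h i) := by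
  classical
  induction s using Finset.induction_on with
  | empty => simp [B_const]
  | insert a s ha ih =>
    simp only [Finset.sum_insert ha]
    rw [B_add, ih]

lemma B_sq (n : ℕ) (c : ℝ) : B n (fun k => ((k : ℝ) - c) ^ 2) = n / 4 + (n / 2 - c) ^ 2 := by
  induction n generalizing c with
  | zero => simp [B]
  | succ n ih =>
    simp only [B]
    have h1 : (fun k : ℕ => ((((k + 1 : ℕ)) : ℝ) - c) ^ 2) =
        (fun k : ℕ => ((k : ℝ) - (c - 1)) ^ 2) := by
      funext k; push_cast; ring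
    rw [h1, ih, ih]
    push_cast
    ring

lemma Ex_stepD (n : ℕ) (F : Wr A → ℝ) : Ex stepD n F = B n (fun k => M k F) := by
  induction n generalizing F with
  | zero =>
    show F 1 = M 0 F
    rw [M_zero]
  | succ n ih =>
    simp only [Ex, B]
    simp only [ih]
    have hA := card_ne (A := A)
    rw [Fintype.sum_prod_type]
    simp only [Fintype.sum_bool, stepD, if_true, Bool.false_eq_true, if_false, one_mul,
      Finset.sum_const, Finset.card_univ, Fintype.card_prod, Fintype.card_bool]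
    have h1 : B n (fun k => M (k + 1) F) =
        (∑ a : A, B n (fun k => M k (fun x => F (up a * x)))) / Fintype.card A := by
      have h2 : (fun k => M (k + 1) F) = (fun k => (Fintype.card A : ℝ)⁻¹ *
          ∑ a : A, M k (fun x => F (up a * x))) := by
        funext k
        rw [M_succ, div_eq_inv_mul]
      rw [h2, B_smul, B_sum, div_eq_inv_mul]
    rw [h1, nsmul_eq_mul]
    push_cast
    field_simp
    ring

lemma M_B (k n : ℕ) (h : Wr A → ℕ → ℝ) :
    M k (fun x => B n (h x)) = B n (fun l => M k (fun x => h x l)) := by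
  induction n generalizing h with
  | zero => rfl
  | succ n ih =>
    simp only [B]
    rw [M_half, M_add, ih, ih]

/-- The nested expectation in terms of the lamp averages. -/
lemma Ex_four (n : ℕ) (F : Wr A → Wr A → Wr A → Wr A → ℝ) :
    (Ex stepD n fun x => Ex stepD n fun y => Ex stepD n fun z => Ex stepD n fun u => F x y z u) =
      B n fun kx => B n fun ky => B n fun kz => B n fun ku =>
        M kx fun x => M ky fun y => M kz fun z => M ku fun u => F x y z u := by
  simp only [Ex_stepD, M_B]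

/-! ### The combinatorial estimate -/

open Classical in
/-- commutation indicator -/
noncomputable def cc (a b : A) : ℝ := if a * b = b * a then 1 else 0

omit [Fintype A] in
lemma cc_nonneg (a b : A) : 0 ≤ cc a b := by unfold cc; split_ifs <;> norm_num

/-- probability that a uniform element commutes with `b` -/
noncomputable def CC (b : A) : ℝ := (∑ a : A, cc b a) / Fintype.card A

variable (A) in
/-- commuting probability -/
noncomputable def kap : ℝ := (∑ b : A, CC b) / Fintype.card A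

lemma CC_nonneg (b : A) : 0 ≤ CC b :=
  div_nonneg (Finset.sum_nonneg fun a _ => cc_nonneg b a) (Nat.cast_nonneg _)

lemma CC_le_one (b : A) : CC b ≤ 1 := by
  unfold CC
  rw [div_le_one (by have := card_ne (A := A); positivity)]
  calc ∑ a : A, cc b a ≤ ∑ a : A, (1 : ℝ) := by
        refine Finset.sum_le_sum fun a _ => ?_
        unfold cc; split_ifs <;> norm_num
    _ = Fintype.card A := by simp

lemma kap_nonneg : 0 ≤ kap A :=
  div_nonneg (Finset.sum_nonneg fun b _ => CC_nonneg b) (Nat.cast_nonneg _)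

lemma kap_lt_one (h : ∃ a b : A, a * b ≠ b * a) : kap A < 1 := by
  obtain ⟨a, b, hab⟩ := h
  have hpos : (0 : ℝ) < Fintype.card A := by have := card_ne (A := A); positivity
  unfold kap
  rw [div_lt_one hpos]
  calc ∑ b : A, CC b < ∑ b : A, (1 : ℝ) := by
        refine Finset.sum_lt_sum (fun b _ => CC_le_one b) ⟨a, Finset.mem_univ _, ?_⟩
        unfold CC
        rw [div_lt_one hpos]
        calc ∑ c : A, cc a c < ∑ c : A, (1 : ℝ) := by
              refine Finset.sum_lt_sum (fun c _ => ?_) ⟨b, Finset.mem_univ _, ?_⟩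
              · unfold cc; split_ifs <;> norm_num
              · unfold cc; rw [if_neg hab]; norm_num
          _ = Fintype.card A := by simp
    _ = Fintype.card A := by simp

omit [Group A] [Fintype A] in
lemma prod_shift (k : ℕ) (D : ℤ) (R : Finset ℤ) (hR : ∀ p ∈ R, 0 ≤ p - D ∧ p - D < k)
    (h : ℤ → ℝ) :
    ∏ j : Fin k, (if (j : ℤ) + D ∈ R then h ((j : ℤ) + D) else 1) = ∏ p ∈ R, h p := by
  rw [← Finset.prod_filter]
  refine Finset.prod_bij (fun j _ => (j : ℤ) + D) ?_ ?_ ?_ ?_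
  · intro j hj
    exact (Finset.mem_filter.1 hj).2
  · intro i _ j _ hij
    apply Fin.ext
    have : (i : ℤ) = (j : ℤ) := by linarith
    exact_mod_cast this
  · intro p hp
    obtain ⟨h1, h2⟩ := hR p hp
    have hlt : (p - D).toNat < k := by omega
    have e : (((⟨(p - D).toNat, hlt⟩ : Fin k) : ℕ) : ℤ) + D = p := by
      show (((p - D).toNat : ℕ) : ℤ) + D = p
      omega
    refine ⟨⟨(p - D).toNat, hlt⟩, ?_, e⟩
    rw [Finset.mem_filter]
    refine ⟨Finset.mem_univ _, ?_⟩
    rw [e]; exact hp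
  · intro j _
    rfl

/-- averages of products of functions of distinct lamps -/
lemma M_prod (k : ℕ) (D : ℤ) (R : Finset ℤ) (hR : ∀ p ∈ R, 0 ≤ p - D ∧ p - D < k)
    (φ : ℤ → A → ℝ) :
    M k (fun z => ∏ p ∈ R, φ p (z.f (p - D))) = ∏ p ∈ R, ((∑ a : A, φ p a) / Fintype.card A) := by
  have hA := card_ne (A := A)
  unfold M
  have h1 : ∀ f : Fin k → A, ∏ p ∈ R, φ p ((Lk k f).f (p - D)) =
      ∏ j : Fin k, (if (j : ℤ) + D ∈ R then φ ((j : ℤ) + D) (f j) else 1) := by
    intro f
    rw [← prod_shift k D R hR (fun p => φ p ((Lk k f).f (p - D)))]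
    refine Finset.prod_congr rfl fun j _ => ?_
    split_ifs with hj
    · rw [Lk_f_of_mem f j (by ring)]
    · rfl
  simp only [h1]
  have h2 : ∑ f : Fin k → A, ∏ j : Fin k, (if (j : ℤ) + D ∈ R then φ ((j : ℤ) + D) (f j) else 1) =
      ∏ j : Fin k, ∑ a : A, (if (j : ℤ) + D ∈ R then φ ((j : ℤ) + D) a else 1) := by
    rw [Finset.prod_univ_sum]
    rw [Fintype.piFinset_univ]
  rw [h2]
  have h3 : (Fintype.card A : ℝ) ^ k = ∏ _j : Fin k, (Fintype.card A : ℝ) := by simp
  rw [h3, ← Finset.prod_div_distrib, ← prod_shift k D R hR (fun p => (∑ a : A, φ p a) /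
    Fintype.card A)]
  refine Finset.prod_congr rfl fun j _ => ?_
  split_ifs with hj
  · rfl
  · simp [hA]

omit [Fintype A] in
/-- pointwise upper bound for the indicator of the law -/
lemma Fw_le_prod {kx ky kz ku : ℕ} (fx : Fin kx → A) (fy : Fin ky → A) (fz : Fin kz → A)
    (fu : Fin ku → A) (R : Finset ℤ)
    (hR : ∀ p ∈ R, 0 ≤ p ∧ p < kx ∧ p < ky ∧ 0 ≤ p - 100 * ((kx : ℤ) - ky) ∧
      p - 100 * ((kx : ℤ) - ky) < kz ∧ p - 100 * ((kx : ℤ) - ky) < ku) :
    Fw (Lk kx fx) (Lk ky fy) (Lk kz fz) (Lk ku fu) ≤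
      ∏ p ∈ R, cc ((Lk kx fx).f p * ((Lk ky fy).f p)⁻¹)
        (((Lk kx fx) ^ 100 * ((Lk ky fy) ^ 100)⁻¹).f p *
          ((Lk kz fz).f (p - 100 * ((kx : ℤ) - ky)) *
            ((Lk ku fu).f (p - 100 * ((kx : ℤ) - ky)))⁻¹) *
          (((Lk kx fx) ^ 100 * ((Lk ky fy) ^ 100)⁻¹).f p)⁻¹) := by
  by_cases h : FreeGroup.lift (![Lk kx fx, Lk ky fy, Lk kz fz, Lk ku fu] : Fin 4 → Wr A) wd = 1
  · rw [Fw_eq_one h, Finset.prod_eq_one]
    intro p hp
    obtain ⟨h1, h2, h3, h4, h5, h6⟩ := hR p hp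
    rw [wd_eq_one_iff] at h
    have hp' := h p
    simp only [Lk_s] at hp'
    have e1 : (⁅Lk kx fx, Lk ky fy⁆ : Wr A).f p = (Lk kx fx).f p * ((Lk ky fy).f p)⁻¹ := by
      rw [comm_f, Lk_s, Lk_s, Lk_f_of_neg fy (show p - (kx : ℤ) < 0 by omega),
        Lk_f_of_neg fx (show p - (ky : ℤ) < 0 by omega)]
      simp
    have e2 : (⁅Lk kz fz, Lk ku fu⁆ : Wr A).f (p - 100 * ((kx : ℤ) - ky)) =
        (Lk kz fz).f (p - 100 * ((kx : ℤ) - ky)) *
          ((Lk ku fu).f (p - 100 * ((kx : ℤ) - ky)))⁻¹ := by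
      rw [comm_f, Lk_s, Lk_s,
        Lk_f_of_neg fu (show p - 100 * ((kx : ℤ) - ky) - (kz : ℤ) < 0 by omega),
        Lk_f_of_neg fz (show p - 100 * ((kx : ℤ) - ky) - (ku : ℤ) < 0 by omega)]
      simp
    rw [e1, e2] at hp'
    unfold cc
    rw [if_pos hp']
  · rw [Fw_eq_zero h]
    exact Finset.prod_nonneg fun p _ => cc_nonneg _ _

lemma M_four_le {kx ky kz ku : ℕ} (R : Finset ℤ)
    (hR : ∀ p ∈ R, 0 ≤ p ∧ p < kx ∧ p < ky ∧ 0 ≤ p - 100 * ((kx : ℤ) - ky) ∧
      p - 100 * ((kx : ℤ) - ky) < kz ∧ p - 100 * ((kx : ℤ) - ky) < ku) :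
    (M kx fun x => M ky fun y => M kz fun z => M ku fun u => Fw (A := A) x y z u) ≤
      kap A ^ R.card := by
  set D : ℤ := 100 * ((kx : ℤ) - ky) with hD
  -- inner two averages
  have s1 : ∀ (fx : Fin kx → A) (fy : Fin ky → A),
      (M kz fun z => M ku fun u => Fw (Lk kx fx) (Lk ky fy) z u) ≤
        ∏ p ∈ R, CC ((Lk kx fx).f p * ((Lk ky fy).f p)⁻¹) := by
    intro fx fy
    rw [M_comm]
    rw [← M_const (A := A) ku (∏ p ∈ R, CC ((Lk kx fx).f p * ((Lk ky fy).f p)⁻¹))]
    apply M_mono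
    intro fu
    set g : ℤ → A := fun p => ((Lk kx fx) ^ 100 * ((Lk ky fy) ^ 100)⁻¹).f p with hg
    have t1 : (M kz fun z => Fw (Lk kx fx) (Lk ky fy) z (Lk ku fu)) ≤
        M kz fun z => ∏ p ∈ R, (fun (p : ℤ) (a : A) =>
          cc ((Lk kx fx).f p * ((Lk ky fy).f p)⁻¹)
            (g p * (a * ((Lk ku fu).f (p - D))⁻¹) * (g p)⁻¹)) p (z.f (p - D)) := by
      apply M_mono
      intro fz
      exact Fw_le_prod fx fy fz fu R hR
    refine t1.trans (le_of_eq ((M_prod kz D R
      (fun p hp => ⟨(hR p hp).2.2.2.1, (hR p hp).2.2.2.2.1⟩) (fun (p : ℤ) (a : A) =>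
          cc ((Lk kx fx).f p * ((Lk ky fy).f p)⁻¹)
            (g p * (a * ((Lk ku fu).f (p - D))⁻¹) * (g p)⁻¹))).trans ?_))
    refine Finset.prod_congr rfl fun p _ => ?_
    unfold CC
    congr 1
    -- reindex the sum
    let e : A ≃ A := (Equiv.mulRight (((Lk ku fu).f (p - D))⁻¹)).trans
      ((Equiv.mulLeft (g p)).trans (Equiv.mulRight (g p)⁻¹))
    exact Fintype.sum_equiv e _ _ (fun a => rfl)
  have s2 : (M kx fun x => M ky fun y => M kz fun z => M ku fun u => Fw (A := A) x y z u) ≤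
      M kx fun x : Wr A => M ky fun y : Wr A => ∏ p ∈ R, CC (x.f p * (y.f p)⁻¹) := by
    apply M_mono
    intro fx
    apply M_mono
    intro fy
    exact s1 fx fy
  refine s2.trans (le_of_eq ?_)
  rw [M_comm]
  have s3 : ∀ y : Wr A, M kx (fun x => ∏ p ∈ R, CC (x.f p * (y.f p)⁻¹)) = kap A ^ R.card := by
    intro y
    have h0 : (fun x : Wr A => ∏ p ∈ R, CC (x.f p * (y.f p)⁻¹)) =
        (fun x : Wr A => ∏ p ∈ R, (fun (p : ℤ) (a : A) => CC (a * (y.f p)⁻¹)) p (x.f (p - 0))) := by
      funext x; simp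
    rw [h0]
    refine (M_prod kx 0 R (fun p hp => ⟨by have := (hR p hp).1; omega,
      by have := (hR p hp).2.1; omega⟩) (fun (p : ℤ) (a : A) => CC (a * (y.f p)⁻¹))).trans ?_
    rw [Finset.prod_eq_pow_card]
    intro p _
    unfold kap
    congr 1
    exact Fintype.sum_equiv (Equiv.mulRight (y.f p)⁻¹) _ _ (fun a => rfl)
  simp only [s3]
  exact M_const ky _

end

end Pool.Agent.H33.Law
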