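import Pool.Agent.H33.LawDrift

/-!
Assembling the example: `G = S₃ ≀ ℤ`.
-/

set_option autoImplicit false

open Filter
open scoped commutatorElement ENNReal Topology

namespace Pool.Agent.H33.Law

open Wr

section

variable {A : Type} [Group A] [Fintype A]

lemma M_four_le_one (kx ky kz ku : ℕ) :
    (M kx fun x => M ky fun y => M kz fun z => M ku fun u => Fw (A := A) x y z u) ≤ 1 := by
  rw [← M_const (A := A) kx 1]
  apply M_mono; intro fx
  rw [← M_const (A := A) ky 1]
  apply M_mono; intro fy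
  rw [← M_const (A := A) kz 1]
  apply M_mono; intro fz
  rw [← M_const (A := A) ku 1]
  apply M_mono; intro fu
  exact Fw_le_one _ _ _ _

lemma atyp {n : ℕ} (hn : 16 ≤ n) {k : ℕ} (h : ¬ ((1600 * |2 * (k : ℤ) - n|) ≤ n)) :
    1 ≤ 10240000 / (n : ℝ) ^ 2 * ((k : ℝ) - n / 2) ^ 2 := by
  push Not at h
  have hn' : (0 : ℝ) < n := by
    have : 0 < n := by omega
    exact_mod_cast this
  have h1 : (n : ℝ) < 1600 * |2 * (k : ℝ) - n| := by exact_mod_cast h
  have h2 : (n : ℝ) ^ 2 ≤ (1600 * |2 * (k : ℝ) - n|) ^ 2 := by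
    apply pow_le_pow_left₀ hn'.le h1.le
  rw [mul_pow, sq_abs] at h2
  rw [div_mul_eq_mul_div, le_div_iff₀ (by positivity)]
  nlinarith

lemma drift_pointwise {n : ℕ} (hn : 16 ≤ n) (kx ky kz ku : ℕ) :
    (M kx fun x => M ky fun y => M kz fun z => M ku fun u => Fw (A := A) x y z u) ≤
      kap A ^ (2 * (n / 8)) + 10240000 / (n : ℝ) ^ 2 * ((kx : ℝ) - n / 2) ^ 2 +
        10240000 / (n : ℝ) ^ 2 * ((ky : ℝ) - n / 2) ^ 2 +
        10240000 / (n : ℝ) ^ 2 * ((kz : ℝ) - n / 2) ^ 2 +
        10240000 / (n : ℝ) ^ 2 * ((ku : ℝ) - n / 2) ^ 2 := by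
  have hk : 0 ≤ kap A ^ (2 * (n / 8)) := pow_nonneg kap_nonneg _
  have hx0 : 0 ≤ 10240000 / (n : ℝ) ^ 2 * ((kx : ℝ) - n / 2) ^ 2 := by positivity
  have hy0 : 0 ≤ 10240000 / (n : ℝ) ^ 2 * ((ky : ℝ) - n / 2) ^ 2 := by positivity
  have hz0 : 0 ≤ 10240000 / (n : ℝ) ^ 2 * ((kz : ℝ) - n / 2) ^ 2 := by positivity
  have hu0 : 0 ≤ 10240000 / (n : ℝ) ^ 2 * ((ku : ℝ) - n / 2) ^ 2 := by positivity
  by_cases tx : (1600 * |2 * (kx : ℤ) - n|) ≤ n
  swap
  · have := atyp hn tx
    linarith [M_four_le_one (A := A) kx ky kz ku]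
  by_cases ty : (1600 * |2 * (ky : ℤ) - n|) ≤ n
  swap
  · have := atyp hn ty
    linarith [M_four_le_one (A := A) kx ky kz ku]
  by_cases tz : (1600 * |2 * (kz : ℤ) - n|) ≤ n
  swap
  · have := atyp hn tz
    linarith [M_four_le_one (A := A) kx ky kz ku]
  by_cases tu : (1600 * |2 * (ku : ℤ) - n|) ≤ n
  swap
  · have := atyp hn tu
    linarith [M_four_le_one (A := A) kx ky kz ku]
  have hm1 : 8 * (n / 8) ≤ n := Nat.mul_div_le n 8
  have hm2 : n < 8 * (n / 8) + 8 := by omega
  set m := n / 8 with hm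
  have hle : (M kx fun x => M ky fun y => M kz fun z => M ku fun u => Fw (A := A) x y z u) ≤
      kap A ^ (Finset.Ico (m : ℤ) (3 * m)).card := by
    apply M_four_le
    intro p hp
    rw [Finset.mem_Ico] at hp
    obtain ⟨hp1, hp2⟩ := hp
    have ax := abs_le.1 (show |1600 * (2 * (kx : ℤ) - n)| ≤ n by
      rw [abs_mul]; simpa using tx)
    have ay := abs_le.1 (show |1600 * (2 * (ky : ℤ) - n)| ≤ n by
      rw [abs_mul]; simpa using ty)
    have az := abs_le.1 (show |1600 * (2 * (kz : ℤ) - n)| ≤ n by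
      rw [abs_mul]; simpa using tz)
    have au := abs_le.1 (show |1600 * (2 * (ku : ℤ) - n)| ≤ n by
      rw [abs_mul]; simpa using tu)
    obtain ⟨ax1, ax2⟩ := ax
    obtain ⟨ay1, ay2⟩ := ay
    obtain ⟨az1, az2⟩ := az
    obtain ⟨au1, au2⟩ := au
    refine ⟨by omega, by omega, by omega, by omega, by omega, by omega⟩
  have hcard : (Finset.Ico (m : ℤ) (3 * m)).card = 2 * m := by
    rw [Int.card_Ico]; omega
  rw [hcard] at hle
  linarith

lemma drift_upper {n : ℕ} (hn : 16 ≤ n) :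
    (Ex (stepD (A := A)) n fun x => Ex stepD n fun y => Ex stepD n fun z => Ex stepD n fun u =>
      Fw x y z u) ≤ kap A ^ (2 * (n / 8)) + 10240000 / (n : ℝ) := by
  rw [Ex_four]
  have hn' : (0 : ℝ) < n := by
    have : 0 < n := by omega
    exact_mod_cast this
  set a : ℝ := 10240000 / (n : ℝ) ^ 2 with ha
  set c : ℝ := kap A ^ (2 * (n / 8)) with hc
  have hsq : B n (fun k => a * ((k : ℝ) - n / 2) ^ 2) = a * (n / 4) := by
    rw [B_smul, B_sq]; ring
  calc _ ≤ B n fun kx => B n fun ky => B n fun kz => B n fun ku =>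
        c + a * ((kx : ℝ) - n / 2) ^ 2 + a * ((ky : ℝ) - n / 2) ^ 2 +
          a * ((kz : ℝ) - n / 2) ^ 2 + a * ((ku : ℝ) - n / 2) ^ 2 := by
        refine B_mono n fun kx => B_mono n fun ky => B_mono n fun kz => B_mono n fun ku => ?_
        exact drift_pointwise hn kx ky kz ku
    _ = B n fun kx => B n fun ky => B n fun kz =>
        (c + a * ((kx : ℝ) - n / 2) ^ 2 + a * ((ky : ℝ) - n / 2) ^ 2 + a * (n / 4)) +
          a * ((kz : ℝ) - n / 2) ^ 2 := by
        congr 1; funext kx; congr 1; funext ky; congr 1; funext kz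
        rw [B_add, B_const, hsq]; ring
    _ = B n fun kx => B n fun ky =>
        (c + a * ((kx : ℝ) - n / 2) ^ 2 + a * (n / 4) + a * (n / 4)) +
          a * ((ky : ℝ) - n / 2) ^ 2 := by
        congr 1; funext kx; congr 1; funext ky
        rw [B_add, B_const, hsq]; ring
    _ = B n fun kx => (c + a * (n / 4) + a * (n / 4) + a * (n / 4)) +
          a * ((kx : ℝ) - n / 2) ^ 2 := by
        congr 1; funext kx
        rw [B_add, B_const, hsq]; ring
    _ = (c + a * (n / 4) + a * (n / 4) + a * (n / 4)) + a * (n / 4) := by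
        rw [B_add, B_const, hsq]
    _ = c + 10240000 / (n : ℝ) := by
        rw [ha]; field_simp; ring

lemma drift_tendsto (h : ∃ a b : A, a * b ≠ b * a) :
    Tendsto (fun n : ℕ => Ex (stepD (A := A)) n fun x => Ex stepD n fun y => Ex stepD n fun z =>
      Ex stepD n fun u => Fw x y z u) atTop (𝓝 0) := by
  have h1 : Tendsto (fun n : ℕ => kap A ^ (2 * (n / 8)) + 10240000 / (n : ℝ)) atTop
      (𝓝 (0 + 0)) := by
    refine Tendsto.add ?_ (tendsto_const_div_atTop_nhds_zero_nat _)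
    have h2 : Tendsto (fun k : ℕ => kap A ^ k) atTop (𝓝 0) :=
      tendsto_pow_atTop_nhds_zero_of_lt_one kap_nonneg (kap_lt_one h)
    refine h2.comp ?_
    refine tendsto_atTop_mono (f := fun n : ℕ => n / 8) (fun n => by omega) ?_
    exact Nat.tendsto_div_const_atTop (by norm_num)
  rw [add_zero] at h1
  refine squeeze_zero' ?_ ?_ h1
  · exact Eventually.of_forall fun n => Ex_nonneg _ _ fun _ => Ex_nonneg _ _ fun _ =>
      Ex_nonneg _ _ fun _ => Ex_nonneg _ _ fun _ => Fw_nonneg _ _ _ _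
  · filter_upwards [eventually_ge_atTop 16] with n hn
    exact drift_upper hn

end

/-! ### The group and the two measures -/

/-- `S₃` -/
abbrev A3 : Type := Equiv.Perm (Fin 3)

/-- the lamp at the origin -/
def lamp (a : A3) : Wr A3 := ⟨fun p => if p = 0 then a else 1, 0⟩

/-- the translation -/
def T : Wr A3 := ⟨fun _ => 1, 1⟩

/-- generators of `S₃ ≀ ℤ` -/
def gens : Set (Wr A3) := insert T (Set.range lamp)

/-- The wreath product `S₃ ≀ ℤ` (restricted), as the subgroup of the unrestricted one generated by the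
lamps at the origin and the translation. -/
abbrev GW : Type := ↥(Subgroup.closure gens)

lemma T_mem : T ∈ Subgroup.closure gens := Subgroup.subset_closure (Set.mem_insert _ _)
lemma lamp_mem (a : A3) : lamp a ∈ Subgroup.closure gens :=
  Subgroup.subset_closure (Set.mem_insert_of_mem _ ⟨a, rfl⟩)

lemma up_eq (a : A3) : up a = lamp a * T := by
  apply Wr.ext
  · funext p; simp [up, lamp, T]
  · simp [up, lamp, T]

lemma stepD_mem (ω : Bool × A3) : stepD ω ∈ Subgroup.closure gens := by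
  unfold stepD
  split_ifs
  · rw [up_eq]; exact Subgroup.mul_mem _ (lamp_mem _) T_mem
  · exact Subgroup.one_mem _

lemma jj_cases (ω : A3 × Fin 3 × A3) : jj ω = -1 ∨ jj ω = 0 ∨ jj ω = 1 := by
  unfold jj
  obtain ⟨a, e, b⟩ := ω
  fin_cases e <;> simp

lemma stepC_eq (ω : A3 × Fin 3 × A3) : stepC ω = lamp ω.1 * T ^ (jj ω) * lamp ω.2.2 := by
  have hT : ∀ j : ℤ, (j = -1 ∨ j = 0 ∨ j = 1) → (T ^ j).f = (fun _ => 1) ∧ (T ^ j).s = j := by
    rintro j (h | h | h) <;> subst h
    · rw [zpow_neg, zpow_one]; constructor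
      · funext p; simp [T]
      · simp [T]
    · rw [zpow_zero]; exact ⟨rfl, rfl⟩
    · rw [zpow_one]; exact ⟨rfl, rfl⟩
  obtain ⟨h1, h2⟩ := hT (jj ω) (jj_cases ω)
  apply Wr.ext
  · funext p
    simp only [mul_f, mul_s, h1, h2, stepC]
    show _ = (if p = 0 then ω.1 else 1) * 1 * (if p - (0 + jj ω) = 0 then ω.2.2 else 1)
    rw [mul_one, zero_add]
    congr 1
    by_cases hp : p = jj ω
    · rw [if_pos hp, if_pos (by rw [hp]; ring)]
    · rw [if_neg hp, if_neg (fun h => hp (by linarith))]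
  · simp only [mul_s, h2]
    show jj ω = 0 + jj ω + 0
    ring

lemma stepC_mem (ω : A3 × Fin 3 × A3) : stepC ω ∈ Subgroup.closure gens := by
  rw [stepC_eq]
  exact Subgroup.mul_mem _ (Subgroup.mul_mem _ (lamp_mem _) (Subgroup.zpow_mem _ T_mem _))
    (lamp_mem _)

/-- steps in `GW` -/
def gD (ω : Bool × A3) : GW := ⟨stepD ω, stepD_mem ω⟩
def gC (ω : A3 × Fin 3 × A3) : GW := ⟨stepC ω, stepC_mem ω⟩

/-- The drifting step distribution: stay put with probability `1/2`, otherwise write a uniformly random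
lamp and step to the right. -/
noncomputable def muD : PMF GW := (PMF.uniformOfFintype (Bool × A3)).map gD

/-- The symmetric switch-walk-switch step distribution. -/
noncomputable def muC : PMF GW := (PMF.uniformOfFintype (A3 × Fin 3 × A3)).map gC

lemma closure_eq_top (K : Subgroup GW) (hT : ∃ h ∈ K, (h : Wr A3) = T)
    (hl : ∀ a : A3, ∃ h ∈ K, (h : Wr A3) = lamp a) : K = ⊤ := by
  rw [eq_top_iff]
  rintro ⟨x, hx⟩ -
  have h1 : Subgroup.closure gens ≤ K.map (Subgroup.subtype _) := by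
    rw [Subgroup.closure_le]
    rintro s (rfl | ⟨a, rfl⟩)
    · obtain ⟨h, hK, he⟩ := hT
      exact ⟨h, hK, he⟩
    · obtain ⟨h, hK, he⟩ := hl a
      exact ⟨h, hK, he⟩
  obtain ⟨y, hy, he⟩ := h1 hx
  have : (⟨x, hx⟩ : GW) = y := Subtype.ext he.symm
  rw [this]
  exact hy

lemma supp_map {Ω : Type} [Fintype Ω] [Nonempty Ω] {X : Type} (f : Ω → X) :
    ((PMF.uniformOfFintype Ω).map f).support = Set.range f := by
  rw [PMF.support_map, PMF.support_uniformOfFintype]
  simp

lemma muD_rw : IsRandomWalkMeasure muD where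
  finite_support := by
    unfold muD
    rw [supp_map]
    exact Set.finite_range _
  generates := by
    unfold muD
    rw [supp_map]
    have hup : ∀ a : A3, ∃ h ∈ Subgroup.closure (Set.range gD), (h : Wr A3) = lamp a * T := by
      intro a
      refine ⟨gD (true, a), Subgroup.subset_closure ⟨_, rfl⟩, ?_⟩
      show stepD (true, a) = _
      rw [← up_eq]; rfl
    have hT : ∃ h ∈ Subgroup.closure (Set.range gD), (h : Wr A3) = T := by
      obtain ⟨h, h1, h2⟩ := hup 1
      refine ⟨h, h1, ?_⟩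
      rw [h2]
      apply Wr.ext
      · funext p; simp [lamp, T]
      · simp [lamp, T]
    refine closure_eq_top _ hT ?_
    intro a
    obtain ⟨h, h1, h2⟩ := hup a
    obtain ⟨h', h1', h2'⟩ := hT
    refine ⟨h * h'⁻¹, Subgroup.mul_mem _ h1 (Subgroup.inv_mem _ h1'), ?_⟩
    rw [Subgroup.coe_mul, Subgroup.coe_inv, h2, h2', mul_inv_cancel_right]
  one_pos := by
    rw [PMF.apply_pos_iff]
    unfold muD
    rw [supp_map]
    exact ⟨(false, 1), rfl⟩

lemma muC_rw : IsRandomWalkMeasure muC where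
  finite_support := by
    unfold muC
    rw [supp_map]
    exact Set.finite_range _
  generates := by
    unfold muC
    rw [supp_map]
    refine closure_eq_top _ ?_ ?_
    · refine ⟨gC (1, 2, 1), Subgroup.subset_closure ⟨_, rfl⟩, ?_⟩
      show stepC (1, 2, 1) = T
      apply Wr.ext
      · funext p; simp [stepC, T]
      · rfl
    · intro a
      refine ⟨gC (a, 1, 1), Subgroup.subset_closure ⟨_, rfl⟩, ?_⟩
      show stepC (a, 1, 1) = lamp a
      apply Wr.ext
      · funext p; simp [stepC, lamp]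
      · rfl
  one_pos := by
    rw [PMF.apply_pos_iff]
    unfold muC
    rw [supp_map]
    refine ⟨(1, 1, 1), ?_⟩
    apply Subtype.ext
    show stepC (1, 1, 1) = 1
    apply Wr.ext
    · funext p; simp [stepC]
    · rfl

/-- the involution of the parameter space inverting the step -/
def invC : (A3 × Fin 3 × A3) ≃ (A3 × Fin 3 × A3) where
  toFun ω := (ω.2.2⁻¹, Fin.rev ω.2.1, ω.1⁻¹)
  invFun ω := (ω.2.2⁻¹, Fin.rev ω.2.1, ω.1⁻¹)
  left_inv ω := by simp
  right_inv ω := by simp

lemma jj_inv (ω : A3 × Fin 3 × A3) : jj (invC ω) = - jj ω := by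
  obtain ⟨a, e, b⟩ := ω
  fin_cases e <;> simp [jj, invC, Fin.rev]

lemma gC_inv (ω : A3 × Fin 3 × A3) : gC (invC ω) = (gC ω)⁻¹ := by
  apply Subtype.ext
  show stepC (invC ω) = (stepC ω)⁻¹
  have hl : ∀ a : A3, lamp a⁻¹ = (lamp a)⁻¹ := by
    intro a
    apply Wr.ext
    · funext p
      by_cases hp : p = 0 <;> simp [lamp, hp]
    · simp [lamp]
  rw [stepC_eq, stepC_eq, jj_inv]
  show lamp ω.2.2⁻¹ * T ^ (-jj ω) * lamp ω.1⁻¹ = _
  rw [hl, hl, zpow_neg]
  group

lemma muC_symm (g : GW) : muC g⁻¹ = muC g := by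
  classical
  unfold muC
  rw [PMF.map_apply, PMF.map_apply, ← invC.tsum_eq]
  refine tsum_congr fun ω => ?_
  rw [gC_inv]
  simp only [inv_inj, PMF.uniformOfFintype_apply]

lemma lawPr_muD : lawPr muD wd = 0 := by
  have hne : ∃ a b : A3, a * b ≠ b * a := by
    refine ⟨Equiv.swap 0 1, Equiv.swap 1 2, ?_⟩
    decide
  have h1 : ∀ n, lawProb muD wd n = ENNReal.ofReal (Ex (stepD (A := A3)) n fun x =>
      Ex stepD n fun y => Ex stepD n fun z => Ex stepD n fun u => Fw x y z u) := fun n =>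
    lawProb_eq_ofReal (Subgroup.subtype (Subgroup.closure gens)) Subtype.val_injective gD stepD
      (fun _ => rfl) wd n Fw (fun _ _ _ _ h => Fw_eq_one h) (fun _ _ _ _ h => Fw_eq_zero h)
  have h2 : Tendsto (fun n => lawProb muD wd n) atTop (𝓝 0) := by
    simp only [h1]
    rw [← ENNReal.ofReal_zero]
    exact (ENNReal.continuous_ofReal.tendsto 0).comp (drift_tendsto hne)
  exact h2.limsup_eq

lemma lawPr_muC : 0 < lawPr muC wd := by
  have h1 : ∀ n, lawProb muC wd n = ENNReal.ofReal (Ex (stepC (A := A3)) n fun x =>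
      Ex stepC n fun y => Ex stepC n fun z => Ex stepC n fun u => Fw x y z u) := fun n =>
    lawProb_eq_ofReal (Subgroup.subtype (Subgroup.closure gens)) Subtype.val_injective gC stepC
      (fun _ => rfl) wd n Fw (fun _ _ _ _ h => Fw_eq_one h) (fun _ _ _ _ h => Fw_eq_zero h)
  have h2 : ENNReal.ofReal (2 / 45) ≤ lawPr muC wd := by
    have h3 : limsup (fun _ : ℕ => ENNReal.ofReal (2 / 45)) atTop ≤ lawPr muC wd := by
      refine limsup_le_limsup ?_
      filter_upwards [eventually_ge_atTop 1] with n hn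
      rw [h1]
      exact ENNReal.ofReal_le_ofReal (centered_lower hn)
    rwa [limsup_const] at h3
  refine lt_of_lt_of_le ?_ h2
  rw [ENNReal.ofReal_pos]
  norm_num

lemma wd_ne_one : wd ≠ 1 := by
  intro h
  have hne : ∃ a b : A3, a * b ≠ b * a := by
    refine ⟨Equiv.swap 0 1, Equiv.swap 1 2, ?_⟩
    decide
  have h1 := drift_tendsto (A := A3) hne
  have h2 : ∀ x y z u : Wr A3, Fw x y z u = 1 := by
    intro x y z u
    apply Fw_eq_one
    rw [h, map_one]
  simp only [h2, Ex_const] at h1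
  exact one_ne_zero (tendsto_nhds_unique tendsto_const_nhds h1)

lemma fg_GW : Group.FG GW := by
  rw [Group.fg_iff_subgroup_fg]
  have : (gens).Finite := (Set.finite_range lamp).insert T
  exact ⟨this.toFinset, by simp⟩

theorem main : ∃ (G : Type) (_ : Group G) (d : ℕ) (w : FreeGroup (Fin d)) (μ ν : PMF G),
    Group.FG G ∧ w ≠ 1 ∧ IsRandomWalkMeasure μ ∧ IsRandomWalkMeasure ν ∧
      (∀ g : G, ν g⁻¹ = ν g) ∧ lawPr μ w = 0 ∧ 0 < lawPr ν w :=
  ⟨GW, inferInstance, 4, wd, muD, muC, fg_GW, wd_ne_one, muD_rw, muC_rw, muC_symm, lawPr_muD,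
    lawPr_muC⟩

end Pool.Agent.H33.Law
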