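import Pool.Agent.H33.LawDefs

/-!
Linking the tsum formula for the law probability with an explicit averaging operator.
-/

set_option autoImplicit false

open Filter
open scoped ENNReal

namespace Pool.Agent.H33.Law

section operator

variable {Ω : Type} [Fintype Ω] {Γ : Type} [Group Γ]

/-- Expectation over the `n`-step walk with step `step ω`, `ω` uniform in `Ω`. -/
noncomputable def Ex (step : Ω → Γ) : ℕ → (Γ → ℝ) → ℝ
  | 0, F => F 1
  | n + 1, F => (∑ ω, Ex step n (fun x => F (step ω * x))) / Fintype.card Ω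

variable (step : Ω → Γ)

lemma Ex_add (n : ℕ) (F G : Γ → ℝ) :
    Ex step n (fun x => F x + G x) = Ex step n F + Ex step n G := by
  induction n generalizing F G with
  | zero => rfl
  | succ n ih =>
    simp only [Ex]
    rw [← add_div, ← Finset.sum_add_distrib]
    congr 1
    exact Finset.sum_congr rfl fun ω _ => ih _ _

lemma Ex_smul (n : ℕ) (c : ℝ) (F : Γ → ℝ) :
    Ex step n (fun x => c * F x) = c * Ex step n F := by
  induction n generalizing F with
  | zero => rfl
  | succ n ih =>
    simp only [Ex]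
    rw [← mul_div_assoc, Finset.mul_sum]
    congr 1
    exact Finset.sum_congr rfl fun ω _ => ih _

lemma Ex_const [Nonempty Ω] (n : ℕ) (c : ℝ) : Ex step n (fun _ => c) = c := by
  induction n with
  | zero => rfl
  | succ n ih =>
    simp only [Ex]
    rw [Finset.sum_congr rfl fun ω _ => ih]
    simp

lemma Ex_mono (n : ℕ) {F G : Γ → ℝ} (h : ∀ x, F x ≤ G x) : Ex step n F ≤ Ex step n G := by
  induction n generalizing F G with
  | zero => exact h 1
  | succ n ih =>
    simp only [Ex]
    apply div_le_div_of_nonneg_right _ (Nat.cast_nonneg _)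
    exact Finset.sum_le_sum fun ω _ => ih fun x => h _

lemma Ex_nonneg (n : ℕ) {F : Γ → ℝ} (h : ∀ x, 0 ≤ F x) : 0 ≤ Ex step n F := by
  induction n generalizing F with
  | zero => exact h 1
  | succ n ih =>
    simp only [Ex]
    exact div_nonneg (Finset.sum_nonneg fun ω _ => ih fun x => h _) (Nat.cast_nonneg _)

lemma Ex_sub (n : ℕ) (F G : Γ → ℝ) :
    Ex step n (fun x => F x - G x) = Ex step n F - Ex step n G := by
  have h1 := Ex_add step n F (fun x => (-1) * G x)
  rw [Ex_smul] at h1
  have h2 : (fun x => F x - G x) = (fun x => F x + (-1) * G x) := by funext x; ring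
  rw [h2, h1]; ring

end operator

section pmf

variable {α β : Type}

/-- integral of a nonnegative function against a PMF. -/
noncomputable def I (p : PMF α) (H : α → ℝ≥0∞) : ℝ≥0∞ := ∑' x, p x * H x

lemma I_pure (a : α) (H : α → ℝ≥0∞) : I (PMF.pure a) H = H a := by
  classical
  unfold I
  rw [tsum_eq_single a]
  · simp
  · intro b hb
    simp [PMF.pure_apply, hb]

lemma I_bind (p : PMF α) (q : α → PMF β) (H : β → ℝ≥0∞) :
    I (p.bind q) H = I p (fun a => I (q a) H) := by
  unfold I
  simp only [PMF.bind_apply]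
  have h1 : ∀ x : β, (∑' a, p a * (q a) x) * H x = ∑' a, p a * ((q a) x * H x) := by
    intro x
    rw [← ENNReal.tsum_mul_right]
    exact tsum_congr fun a => mul_assoc _ _ _
  simp only [h1]
  rw [ENNReal.tsum_comm]
  exact tsum_congr fun a => ENNReal.tsum_mul_left

lemma I_map (f : α → β) (p : PMF α) (H : β → ℝ≥0∞) :
    I (p.map f) H = I p (fun a => H (f a)) := by
  unfold PMF.map
  rw [I_bind]
  congr 1
  funext a
  simp only [Function.comp]
  exact I_pure _ _

lemma I_uniform [Fintype α] [Nonempty α] (H : α → ℝ≥0∞) :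
    I (PMF.uniformOfFintype α) H = (∑ a, H a) / (Fintype.card α : ℝ≥0∞) := by
  unfold I
  simp only [PMF.uniformOfFintype_apply]
  rw [tsum_fintype, ← Finset.mul_sum, ENNReal.div_eq_inv_mul]

end pmf

section link

variable {Ω : Type} [Fintype Ω] [Nonempty Ω] {G Γ : Type} [Group G] [Group Γ]

lemma I_walk (ι : G →* Γ) (stepG : Ω → G) (step : Ω → Γ) (hs : ∀ ω, ι (stepG ω) = step ω)
    (n : ℕ) (F : Γ → ℝ) (hF : ∀ x, 0 ≤ F x) :
    I (walk ((PMF.uniformOfFintype Ω).map stepG) n) (fun x => ENNReal.ofReal (F (ι x))) =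
      ENNReal.ofReal (Ex step n F) := by
  induction n generalizing F with
  | zero =>
    show I (PMF.pure 1) _ = _
    rw [I_pure, map_one]
    rfl
  | succ n ih =>
    show I (((PMF.uniformOfFintype Ω).map stepG).bind fun s =>
      (walk ((PMF.uniformOfFintype Ω).map stepG) n).map fun x => s * x) _ = _
    rw [I_bind, I_map, I_uniform]
    have h1 : ∀ ω, I ((walk ((PMF.uniformOfFintype Ω).map stepG) n).map fun x => stepG ω * x)
        (fun x => ENNReal.ofReal (F (ι x))) =
        ENNReal.ofReal (Ex step n (fun x => F (step ω * x))) := by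
      intro ω
      rw [I_map]
      rw [← ih (fun x => F (step ω * x)) (fun x => hF _)]
      congr 1
      funext x
      rw [map_mul, hs]
    simp only [h1, Ex]
    rw [ENNReal.ofReal_div_of_pos (by exact_mod_cast Fintype.card_pos), ENNReal.ofReal_natCast,
      ENNReal.ofReal_sum_of_nonneg]
    intro ω _
    exact Ex_nonneg step n fun x => hF _

omit [Group G] in
lemma tsum_fin_succ {d : ℕ} (Φ : (Fin (d + 1) → G) → ℝ≥0∞) :
    ∑' g : Fin (d + 1) → G, Φ g = ∑' a : G, ∑' g : Fin d → G, Φ (Fin.cons a g) := by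
  rw [← (Fin.consEquiv (fun _ : Fin (d + 1) => G)).tsum_eq, ENNReal.tsum_prod']
  rfl

/-- The four variable case as an iterated integral. -/
lemma lawProb_four (μ : PMF G) (w : FreeGroup (Fin 4)) (n : ℕ) :
    lawProb μ w n = I (walk μ n) (fun a => I (walk μ n) (fun b => I (walk μ n) (fun c =>
      I (walk μ n) (fun e =>
        Set.indicator {g : Fin 4 → G | FreeGroup.lift g w = 1} (fun _ => (1 : ℝ≥0∞))
          ![a, b, c, e])))) := by
  unfold lawProb
  rw [tsum_fin_succ]
  simp only [tsum_fin_succ]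
  unfold I
  refine tsum_congr fun a => ?_
  rw [← ENNReal.tsum_mul_left]
  refine tsum_congr fun b => ?_
  rw [← ENNReal.tsum_mul_left, ← ENNReal.tsum_mul_left]
  refine tsum_congr fun c => ?_
  rw [← ENNReal.tsum_mul_left, ← ENNReal.tsum_mul_left, ← ENNReal.tsum_mul_left]
  refine tsum_congr fun e => ?_
  rw [tsum_eq_single (default : Fin 0 → G) (fun b hb => absurd (Subsingleton.elim b _) hb)]
  have h1 : (Fin.cons a (Fin.cons b (Fin.cons c (Fin.cons e (default : Fin 0 → G)))) :
      Fin 4 → G) = ![a, b, c, e] := by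
    funext i
    fin_cases i <;> rfl
  rw [h1]
  dsimp only
  by_cases hw : FreeGroup.lift ![a, b, c, e] w = 1
  · rw [Set.indicator_of_mem (by exact hw), Set.indicator_of_mem (by exact hw), mul_one]
    simp [Fin.prod_univ_four, mul_assoc]
  · rw [Set.indicator_of_notMem (by exact hw), Set.indicator_of_notMem (by exact hw)]
    simp

/-- The law probability as a real number, through the averaging operator. -/
lemma lawProb_eq_ofReal (ι : G →* Γ) (hι : Function.Injective ι) (stepG : Ω → G)
    (step : Ω → Γ) (hs : ∀ ω, ι (stepG ω) = step ω) (w : FreeGroup (Fin 4)) (n : ℕ)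
    (F : Γ → Γ → Γ → Γ → ℝ)
    (hF1 : ∀ a b c e, FreeGroup.lift (![a, b, c, e] : Fin 4 → Γ) w = 1 → F a b c e = 1)
    (hF2 : ∀ a b c e, FreeGroup.lift (![a, b, c, e] : Fin 4 → Γ) w ≠ 1 → F a b c e = 0) :
    lawProb ((PMF.uniformOfFintype Ω).map stepG) w n =
      ENNReal.ofReal (Ex step n fun a => Ex step n fun b => Ex step n fun c => Ex step n fun e =>
        F a b c e) := by
  have hF0 : ∀ a b c e, 0 ≤ F a b c e := by
    intro a b c e
    by_cases h : FreeGroup.lift (![a, b, c, e] : Fin 4 → Γ) w = 1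
    · rw [hF1 a b c e h]; exact zero_le_one
    · rw [hF2 a b c e h]
  rw [lawProb_four]
  have hind : ∀ a b c e : G,
      Set.indicator {g : Fin 4 → G | FreeGroup.lift g w = 1} (fun _ => (1 : ℝ≥0∞)) ![a, b, c, e] =
        ENNReal.ofReal (F (ι a) (ι b) (ι c) (ι e)) := by
    intro a b c e
    have h1 : ι (FreeGroup.lift (![a, b, c, e] : Fin 4 → G) w) =
        FreeGroup.lift (![ι a, ι b, ι c, ι e] : Fin 4 → Γ) w := by
      have : (ι.comp (FreeGroup.lift (![a, b, c, e] : Fin 4 → G))) =
          FreeGroup.lift (![ι a, ι b, ι c, ι e] : Fin 4 → Γ) := by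
        ext i
        fin_cases i <;> simp
      rw [← this]; rfl
    by_cases hw : FreeGroup.lift (![a, b, c, e] : Fin 4 → G) w = 1
    · have hw' : FreeGroup.lift (![ι a, ι b, ι c, ι e] : Fin 4 → Γ) w = 1 := by
        rw [← h1, hw, map_one]
      rw [Set.indicator_of_mem (by exact hw), hF1 _ _ _ _ hw']
      simp
    · have hw' : FreeGroup.lift (![ι a, ι b, ι c, ι e] : Fin 4 → Γ) w ≠ 1 := by
        rw [← h1]
        intro hc
        exact hw (hι (by rw [hc, map_one]))
      rw [Set.indicator_of_notMem (by exact hw), hF2 _ _ _ _ hw']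
      simp
  simp only [hind]
  have s1 : ∀ a b c : G, I (walk ((PMF.uniformOfFintype Ω).map stepG) n) (fun e =>
      ENNReal.ofReal (F (ι a) (ι b) (ι c) (ι e))) =
      ENNReal.ofReal (Ex step n fun e => F (ι a) (ι b) (ι c) e) := fun a b c =>
    I_walk ι stepG step hs n (fun e => F (ι a) (ι b) (ι c) e) (fun _ => hF0 _ _ _ _)
  simp only [s1]
  have s2 : ∀ a b : G, I (walk ((PMF.uniformOfFintype Ω).map stepG) n) (fun c =>
      ENNReal.ofReal (Ex step n fun e => F (ι a) (ι b) (ι c) e)) =
      ENNReal.ofReal (Ex step n fun c => Ex step n fun e => F (ι a) (ι b) c e) := fun a b =>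
    I_walk ι stepG step hs n (fun c => Ex step n fun e => F (ι a) (ι b) c e)
      (fun _ => Ex_nonneg _ _ fun _ => hF0 _ _ _ _)
  simp only [s2]
  have s3 : ∀ a : G, I (walk ((PMF.uniformOfFintype Ω).map stepG) n) (fun b =>
      ENNReal.ofReal (Ex step n fun c => Ex step n fun e => F (ι a) (ι b) c e)) =
      ENNReal.ofReal (Ex step n fun b => Ex step n fun c => Ex step n fun e => F (ι a) b c e) :=
    fun a => I_walk ι stepG step hs n
      (fun b => Ex step n fun c => Ex step n fun e => F (ι a) b c e)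
      (fun _ => Ex_nonneg _ _ fun _ => Ex_nonneg _ _ fun _ => hF0 _ _ _ _)
  simp only [s3]
  exact I_walk ι stepG step hs n
      (fun a => Ex step n fun b => Ex step n fun c => Ex step n fun e => F a b c e)
      (fun _ => Ex_nonneg _ _ fun _ => Ex_nonneg _ _ fun _ => Ex_nonneg _ _ fun _ => hF0 _ _ _ _)

end link

end Pool.Agent.H33.Law
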