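import Mathlib

/-!
Purely algebraic facts about an increasing sequence of subgroups `S n` with
`S (n+1) = S 1 * ψ (S n)`.
-/

set_option autoImplicit false

open scoped Pointwise

namespace Pool.Agent.H33.TrajAlg

variable {K : Type*} [Group K]

/-- The relative index is the number of cosets of `A` met by `B`. -/
lemma relIndex_eq_card_image (A B : Subgroup K) :
    A.relIndex B = Nat.card ((QuotientGroup.mk : K → K ⧸ A) '' (B : Set K)) := by
  classical
  have h0 : ∀ b : B, b • ((QuotientGroup.mk (1 : K)) : K ⧸ A) = QuotientGroup.mk (b : K) := by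
    intro b
    show (QuotientGroup.mk ((b : K) * 1) : K ⧸ A) = _
    rw [mul_one]
  have h1 : (MulAction.orbit B ((QuotientGroup.mk (1 : K)) : K ⧸ A)) =
      ((QuotientGroup.mk : K → K ⧸ A) '' (B : Set K)) := by
    ext x
    constructor
    · rintro ⟨b, rfl⟩
      exact ⟨b, b.2, (h0 b).symm⟩
    · rintro ⟨b, hb, rfl⟩
      exact ⟨⟨b, hb⟩, h0 ⟨b, hb⟩⟩
  have h2 : MulAction.stabilizer B ((QuotientGroup.mk (1 : K)) : K ⧸ A) = A.subgroupOf B := by
    ext b
    rw [MulAction.mem_stabilizer_iff, Subgroup.mem_subgroupOf, h0, eq_comm, QuotientGroup.eq]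
    simp
  rw [Subgroup.relIndex, ← h2, MulAction.index_stabilizer, h1]
  rfl

/-- If `C = B * A` as a set with `A ≤ C`, then `[C : A] = [B : A ∩ B]`. -/
lemma relIndex_eq_of_mul_eq {A B C : Subgroup K} (h : (C : Set K) = (B : Set K) * (A : Set K)) :
    A.relIndex C = A.relIndex B := by
  rw [relIndex_eq_card_image, relIndex_eq_card_image]
  congr 2
  rw [h]
  ext x
  constructor
  · rintro ⟨_, ⟨b, hb, a, ha, rfl⟩, rfl⟩
    refine ⟨b, hb, ?_⟩
    rw [QuotientGroup.eq]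
    simpa using ha
  · rintro ⟨b, hb, rfl⟩
    exact ⟨b, ⟨b, hb, 1, A.one_mem, by simp⟩, rfl⟩

/-- Data: subgroups with `S 0 = ⊥`, `S (n+1) = S 1 * ψ (S n)`. -/
structure IsTraj (ψ : K →* K) (S : ℕ → Subgroup K) : Prop where
  zero : S 0 = ⊥
  succ : ∀ n, (S (n + 1) : Set K) = (S 1 : Set K) * ((S n).map ψ : Set K)

variable {ψ : K →* K} {S : ℕ → Subgroup K}

namespace IsTraj

lemma map_le (h : IsTraj ψ S) (n : ℕ) : (S n).map ψ ≤ S (n + 1) := by
  intro x hx
  have : x ∈ (S (n + 1) : Set K) := by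
    rw [h.succ]
    exact ⟨1, (S 1).one_mem, x, hx, one_mul x⟩
  exact this

lemma one_le (h : IsTraj ψ S) (n : ℕ) : S 1 ≤ S (n + 1) := by
  intro x hx
  have : x ∈ (S (n + 1) : Set K) := by
    rw [h.succ]
    exact ⟨x, hx, 1, ((S n).map ψ).one_mem, mul_one x⟩
  exact this

lemma succ' (h : IsTraj ψ S) (n : ℕ) :
    (S (n + 1) : Set K) = ((S n).map ψ : Set K) * (S 1 : Set K) := by
  have h1 : ((S (n + 1) : Set K))⁻¹ = (S (n + 1) : Set K) := inv_coe_set
  rw [← h1, h.succ, mul_inv_rev, inv_coe_set, inv_coe_set]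

lemma le_succ (h : IsTraj ψ S) (n : ℕ) : S n ≤ S (n + 1) := by
  induction n with
  | zero => rw [h.zero]; exact bot_le
  | succ n ih =>
    intro x hx
    have hx' : x ∈ (S (n + 1) : Set K) := hx
    rw [h.succ] at hx'
    obtain ⟨u, hu, y, hy, rfl⟩ := hx'
    have : u * y ∈ (S (n + 1 + 1) : Set K) := by
      rw [h.succ]
      exact ⟨u, hu, y, Subgroup.map_mono ih hy, rfl⟩
    exact this

lemma mono (h : IsTraj ψ S) : Monotone S := monotone_nat_of_le_succ h.le_succ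

lemma relIndex_succ (h : IsTraj ψ S) (n : ℕ) :
    (S n).relIndex (S (n + 1)) =
      (S n).relIndex ((S (n + 1)).comap ψ ⊓ S (n + 1)) * (S (n + 1)).relIndex (S (n + 2)) := by
  have h1 : (S (n + 1)).relIndex (S (n + 2)) =
      ((S (n + 1)).comap ψ ⊓ S (n + 1)).relIndex (S (n + 1)) := by
    rw [Subgroup.inf_relIndex_right, Subgroup.relIndex_comap]
    apply relIndex_eq_of_mul_eq
    apply Set.Subset.antisymm
    · rw [h.succ' (n + 1)]
      exact Set.mul_subset_mul_left (h.one_le n)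
    · rintro _ ⟨x, hx, y, hy, rfl⟩
      exact (S (n + 2)).mul_mem (h.map_le (n + 1) hx) (h.le_succ (n + 1) hy)
  rw [h1]
  refine (Subgroup.relIndex_mul_relIndex _ _ _ ?_ inf_le_right).symm
  refine le_inf ?_ (h.le_succ n)
  rw [← Subgroup.map_le_iff_le_comap]
  exact h.map_le n

/-- The indices `[S (n+1) : S n]` are eventually constant. -/
lemma exists_stable (h : IsTraj ψ S) (hfin : ∀ n, 1 ≤ n → (S n).relIndex (S (n + 1)) ≠ 0) :
    ∃ m₀, 1 ≤ m₀ ∧ (∀ n, m₀ ≤ n → (S n).relIndex (S (n + 1)) = (S m₀).relIndex (S (m₀ + 1))) ∧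
      (∀ n, m₀ ≤ n → ∀ x, x ∈ S (n + 1) → ψ x ∈ S (n + 1) → x ∈ S n) := by
  set a : ℕ → ℕ := fun n => (S (n + 1)).relIndex (S (n + 2)) with ha
  have hanti : Antitone a := by
    apply antitone_nat_of_succ_le
    intro n
    have h1 := h.relIndex_succ (n + 1)
    have h2 : a n ≠ 0 := hfin (n + 1) (by omega)
    simp only [ha] at h1 h2 ⊢
    rw [h1] at h2 ⊢
    exact Nat.le_mul_of_pos_left _ (Nat.pos_of_ne_zero (left_ne_zero_of_mul h2))
  obtain ⟨n₀, hn₀⟩ : ∃ n₀, ∀ n, n₀ ≤ n → a n = a n₀ := by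
    have hne : (Set.range a).Nonempty := ⟨a 0, 0, rfl⟩
    obtain ⟨n₀, hn₀⟩ := Nat.sInf_mem hne
    refine ⟨n₀, fun n hn => le_antisymm (hanti hn) ?_⟩
    rw [hn₀]
    exact Nat.sInf_le ⟨n, rfl⟩
  refine ⟨n₀ + 1, by omega, ?_, ?_⟩
  · intro n hn
    obtain ⟨k, rfl⟩ : ∃ k, n = k + 1 := ⟨n - 1, by omega⟩
    exact hn₀ k (by omega)
  · intro n hn x hx hψx
    obtain ⟨k, rfl⟩ : ∃ k, n = k + 1 := ⟨n - 1, by omega⟩
    have h1 := h.relIndex_succ (k + 1)
    have h2 : a k = a (k + 1) := by rw [hn₀ k (by omega), hn₀ (k + 1) (by omega)]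
    have h3 : a (k + 1) ≠ 0 := hfin (k + 2) (by omega)
    simp only [ha] at h2 h3
    rw [h2] at h1
    have h4 : (S (k + 1)).relIndex ((S (k + 1 + 1)).comap ψ ⊓ S (k + 1 + 1)) = 1 := by
      have h5 : 1 * (S (k + 1 + 1)).relIndex (S (k + 1 + 2)) =
        (S (k + 1)).relIndex ((S (k + 1 + 1)).comap ψ ⊓ S (k + 1 + 1)) *
          (S (k + 1 + 1)).relIndex (S (k + 1 + 2)) := by rw [one_mul]; exact h1
      exact (Nat.eq_of_mul_eq_mul_right (Nat.pos_of_ne_zero h3) h5).symm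
    rw [Subgroup.relIndex_eq_one] at h4
    exact h4 ⟨hψx, hx⟩

/-- The key property: nothing outside `S m` can be brought into `S (m + k)` by `ψ^k`. -/
lemma tidy (h : IsTraj ψ S) {m₀ : ℕ}
    (hst : ∀ n, m₀ ≤ n → ∀ x, x ∈ S (n + 1) → ψ x ∈ S (n + 1) → x ∈ S n)
    {m : ℕ} (hm : m₀ ≤ m) (n k : ℕ) (x : K) (hx : x ∈ S n) (hk : (ψ^[k]) x ∈ S (m + k)) :
    x ∈ S m := by
  by_contra hcon
  -- minimal `n` with `x ∈ S n`
  classical
  have hex : ∃ n, x ∈ S n := ⟨n, hx⟩
  set N := Nat.find hex with hN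
  have hN1 : x ∈ S N := Nat.find_spec hex
  have hmN : m < N := by
    by_contra hle
    push Not at hle
    exact hcon (h.mono hle hN1)
  have hN2 : x ∉ S (N - 1) := Nat.find_min hex (by omega)
  have key : ∀ j, (ψ^[j]) x ∈ S (N + j) ∧ (ψ^[j]) x ∉ S (N + j - 1) := by
    intro j
    induction j with
    | zero => exact ⟨hN1, hN2⟩
    | succ j ih =>
      obtain ⟨i1, i2⟩ := ih
      rw [Function.iterate_succ_apply']
      refine ⟨?_, ?_⟩
      · exact h.map_le (N + j) ⟨_, i1, rfl⟩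
      · intro hc
        apply i2
        refine hst (N + j - 1) (by omega) _ ?_ ?_
        · have : N + j - 1 + 1 = N + j := by omega
          rw [this]; exact i1
        · have : N + j - 1 + 1 = N + (j + 1) - 1 := by omega
          rw [this]; exact hc
  exact (key k).2 (h.mono (by omega) hk)

end IsTraj

end Pool.Agent.H33.TrajAlg
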