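import Pool.Agent.H33.TrajAlg
import Pool.Agent.H33.EntDefs

/-!
The telescoping argument: bounding `S n ∩ H` by a trajectory inside `H`.
-/

set_option autoImplicit false

open scoped Pointwise

namespace Pool.Agent.H33.TrajAlg

variable {G : Type*} [Group G]

open Pool.Agent.H33.Ent

@[simp] lemma coe_restr (φ : G →* G) (H : Subgroup G) (hφ : H ≤ H.comap φ) (h : H) :
    ((restr φ H hφ h : H) : G) = φ h := rfl

namespace IsTraj

variable {φ : G →* G} {S : ℕ → Subgroup G}

lemma map_quotient (h : IsTraj φ S) (H : Subgroup G) [H.Normal] (hφ : H ≤ H.comap φ) :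
    IsTraj (QuotientGroup.map H H φ hφ) (fun n => (S n).map (QuotientGroup.mk' H)) where
  zero := by simp [h.zero]
  succ n := by
    have h1 : (((S n).map (QuotientGroup.mk' H)).map (QuotientGroup.map H H φ hφ)) =
        ((S n).map φ).map (QuotientGroup.mk' H) := by
      rw [Subgroup.map_map, Subgroup.map_map]
      rfl
    rw [h1, Subgroup.coe_map, h.succ, Subgroup.coe_map, Subgroup.coe_map, Subgroup.coe_map,
      Set.image_mul, Subgroup.coe_map]

lemma exists_telescope (h : IsTraj φ S) (H : Subgroup G) [H.Normal] (hφ : H ≤ H.comap φ)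
    {m₀ m : ℕ} (hm : m₀ ≤ m)
    (hst : ∀ n, m₀ ≤ n → ∀ x, x ∈ (S (n + 1)).map (QuotientGroup.mk' H) →
      QuotientGroup.map H H φ hφ x ∈ (S (n + 1)).map (QuotientGroup.mk' H) →
      x ∈ (S n).map (QuotientGroup.mk' H))
    {R : ℕ → Subgroup H} (hR : IsTraj (restr φ H hφ) R)
    (hR1 : R 1 = (S (m + 1)).subgroupOf H) :
    ∀ (j k : ℕ) (x : G), x ∈ S j →
      ((QuotientGroup.map H H φ hφ)^[k]) (x : G ⧸ H) ∈ (S (m + k)).map (QuotientGroup.mk' H) →
      ∃ s ∈ S m, ∃ w ∈ R j, x = s * (w : G) := by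
  have hQ := h.map_quotient H hφ
  have hiter : ∀ (k : ℕ) (x : G), ((QuotientGroup.map H H φ hφ)^[k]) (x : G ⧸ H) =
      (((φ^[k]) x : G) : G ⧸ H) := by
    intro k
    induction k with
    | zero => intro x; rfl
    | succ k ih => intro x; rw [Function.iterate_succ_apply, Function.iterate_succ_apply,
        QuotientGroup.map_mk, ih]
  have hiterS : ∀ (k : ℕ) (x : G), x ∈ S 1 → (φ^[k]) x ∈ S (k + 1) := by
    intro k
    induction k with
    | zero => intro x hx; exact hx
    | succ k ih => intro x hx; rw [Function.iterate_succ_apply']; exact h.map_le _ ⟨_, ih x hx, rfl⟩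
  intro j
  induction j with
  | zero =>
    intro k x hx _
    rw [h.zero, Subgroup.mem_bot] at hx
    exact ⟨1, (S m).one_mem, 1, (R 0).one_mem, by simp [hx]⟩
  | succ j ih =>
    intro k x hx hk
    have hx' : x ∈ (S (j + 1) : Set G) := hx
    rw [h.succ] at hx'
    obtain ⟨u, hu, _, ⟨x', hx'j, rfl⟩, rfl⟩ := hx'
    -- the image of `x'` satisfies the hypothesis
    have hk' : ((QuotientGroup.map H H φ hφ)^[k + 1]) (x' : G ⧸ H) ∈
        (S (m + (k + 1))).map (QuotientGroup.mk' H) := by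
      have e1 : ((QuotientGroup.map H H φ hφ)^[k + 1]) (x' : G ⧸ H) =
          ((((φ^[k]) u : G) : G ⧸ H))⁻¹ *
            ((QuotientGroup.map H H φ hφ)^[k]) (((u * φ x' : G)) : G ⧸ H) := by
        rw [hiter, hiter, Function.iterate_succ_apply]
        have : (φ^[k]) (u * φ x') = (φ^[k]) u * (φ^[k]) (φ x') := iterate_map_mul φ k u (φ x')
        rw [this, QuotientGroup.mk_mul, inv_mul_cancel_left]
      rw [e1]
      apply Subgroup.mul_mem
      · apply Subgroup.inv_mem
        exact ⟨_, h.mono (by omega) (hiterS k u hu), rfl⟩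
      · exact Subgroup.map_mono (h.mono (by omega)) hk
    obtain ⟨s', hs', w', hw', hx'e⟩ := ih (k + 1) x' hx'j hk'
    -- the image of `x` lies in the image of `S m`
    have hxm : ((u * φ x' : G) : G ⧸ H) ∈ (S m).map (QuotientGroup.mk' H) :=
      hQ.tidy hst hm (j + 1) k _ ⟨_, hx, rfl⟩ hk
    obtain ⟨s, hs, hse⟩ := hxm
    have hseq : (s : G ⧸ H) = ((u * φ x' : G) : G ⧸ H) := hse
    have hmem : s⁻¹ * u * φ s' ∈ H := by
      have h1 : s⁻¹ * (u * φ x') ∈ H := QuotientGroup.eq.1 hseq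
      have h2 : s⁻¹ * u * φ s' = s⁻¹ * (u * φ x') * (φ (w' : G))⁻¹ := by
        rw [hx'e, map_mul]; group
      rw [h2]
      exact H.mul_mem h1 (H.inv_mem (hφ w'.2))
    have hmemS : s⁻¹ * u * φ s' ∈ S (m + 1) := by
      refine (S (m + 1)).mul_mem ((S (m + 1)).mul_mem ((S (m + 1)).inv_mem (h.le_succ m hs))
        (h.one_le m hu)) ?_
      exact h.map_le m ⟨s', hs', rfl⟩
    refine ⟨s, hs, ⟨s⁻¹ * u * φ s', hmem⟩ * restr φ H hφ w', ?_, ?_⟩
    · have : (⟨s⁻¹ * u * φ s', hmem⟩ * restr φ H hφ w' : H) ∈ (R (j + 1) : Set H) := by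
        rw [hR.succ]
        refine ⟨_, ?_, _, ⟨w', hw', rfl⟩, rfl⟩
        rw [hR1]
        exact hmemS
      exact this
    · rw [Subgroup.coe_mul, coe_restr]
      simp only
      rw [hx'e, map_mul]
      group

/-- `S n ∩ H` is contained in the trajectory of `S (m+1) ∩ H` inside `H`. -/
lemma inf_le (h : IsTraj φ S) (H : Subgroup G) [H.Normal] (hφ : H ≤ H.comap φ)
    {m₀ m : ℕ} (hm : m₀ ≤ m)
    (hst : ∀ n, m₀ ≤ n → ∀ x, x ∈ (S (n + 1)).map (QuotientGroup.mk' H) →
      QuotientGroup.map H H φ hφ x ∈ (S (n + 1)).map (QuotientGroup.mk' H) →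
      x ∈ (S n).map (QuotientGroup.mk' H))
    {R : ℕ → Subgroup H} (hR : IsTraj (restr φ H hφ) R)
    (hR1 : R 1 = (S (m + 1)).subgroupOf H) (n : ℕ) :
    (S (n + 1)).subgroupOf H ≤ R (n + 1) := by
  intro x hx
  rw [Subgroup.mem_subgroupOf] at hx
  have hq : ((QuotientGroup.map H H φ hφ)^[0]) ((x : G) : G ⧸ H) ∈
      (S (m + 0)).map (QuotientGroup.mk' H) := by
    have : ((x : G) : G ⧸ H) = 1 := (QuotientGroup.eq_one_iff _).2 x.2
    rw [Function.iterate_zero, id, this]
    exact Subgroup.one_mem _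
  obtain ⟨s, hs, w, hw, hxe⟩ := h.exists_telescope H hφ hm hst hR hR1 (n + 1) 0 x hx hq
  have hsH : s ∈ H := by
    have : s = (x : G) * (w : G)⁻¹ := by rw [hxe]; group
    rw [this]
    exact H.mul_mem x.2 (H.inv_mem w.2)
  have hx2 : x = ⟨s, hsH⟩ * w := by
    apply Subtype.ext
    simpa using hxe
  rw [hx2]
  refine (R (n + 1)).mul_mem (hR.one_le n ?_) hw
  rw [hR1, Subgroup.mem_subgroupOf]
  exact h.le_succ m hs

/-- A smaller trajectory inside `H` is contained in `S n ∩ H`. -/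
lemma le_inf (h : IsTraj φ S) (H : Subgroup G) (hφ : H ≤ H.comap φ)
    {R : ℕ → Subgroup H} (hR : IsTraj (restr φ H hφ) R)
    (hR1 : R 1 ≤ (S 1).subgroupOf H) (n : ℕ) :
    R n ≤ (S n).subgroupOf H := by
  induction n with
  | zero => rw [hR.zero]; exact bot_le
  | succ n ih =>
    intro x hx
    have hx' : x ∈ (R (n + 1) : Set H) := hx
    rw [hR.succ] at hx'
    obtain ⟨u, hu, _, ⟨y, hy, rfl⟩, rfl⟩ := hx'
    rw [Subgroup.mem_subgroupOf, Subgroup.coe_mul, coe_restr]
    exact (S (n + 1)).mul_mem (h.one_le n (hR1 hu)) (h.map_le n ⟨_, ih hy, rfl⟩)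

end IsTraj

/-- Index formula in an extension. -/
lemma relIndex_extension (H : Subgroup G) [H.Normal] {A B : Subgroup G} (hAB : A ≤ B) :
    A.relIndex B = (A.map (QuotientGroup.mk' H)).relIndex (B.map (QuotientGroup.mk' H)) *
      (A.subgroupOf H).relIndex (B.subgroupOf H) := by
  -- the middle group `A (B ∩ H)`
  have hker : (QuotientGroup.mk' H).ker = H := QuotientGroup.ker_mk' H
  set M : Subgroup G := (A ⊔ H) ⊓ B with hM
  have hAM : A ≤ M := le_inf le_sup_left hAB
  have hMB : M ≤ B := inf_le_right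
  have h1 : (A.map (QuotientGroup.mk' H)).relIndex (B.map (QuotientGroup.mk' H)) =
      M.relIndex B := by
    rw [← Subgroup.relIndex_comap, Subgroup.comap_map_eq, hker, hM, Subgroup.inf_relIndex_right]
  have hMmul : (M : Set G) = ((B ⊓ H : Subgroup G) : Set G) * (A : Set G) := by
    apply Set.Subset.antisymm
    · rintro x ⟨hx1, hx2⟩
      have hx1' : x ∈ H ⊔ A := by rw [sup_comm]; exact hx1
      rw [Subgroup.mem_sup_of_normal_left] at hx1'
      obtain ⟨y, hy, z, hz, rfl⟩ := hx1'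
      refine ⟨y, ⟨?_, hy⟩, z, hz, rfl⟩
      have : y = y * z * z⁻¹ := by group
      rw [this]
      exact B.mul_mem hx2 (B.inv_mem (hAB hz))
    · rintro _ ⟨y, ⟨hy1, hy2⟩, z, hz, rfl⟩
      exact ⟨Subgroup.mul_mem _ (Subgroup.mem_sup_right hy2) (Subgroup.mem_sup_left hz),
        B.mul_mem hy1 (hAB hz)⟩
  have h2 : A.relIndex M = (A.subgroupOf H).relIndex (B.subgroupOf H) := by
    rw [relIndex_eq_of_mul_eq hMmul]
    rw [Subgroup.subgroupOf, Subgroup.relIndex_comap]
    congr 1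
    rw [Subgroup.subgroupOf_map_subtype]
  rw [h1, ← h2, mul_comm]
  exact (Subgroup.relIndex_mul_relIndex _ _ _ hAM hMB).symm

end Pool.Agent.H33.TrajAlg
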